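import Mathlib

/-!
Orientation of triples of points of the plane, crossing segments.
-/

namespace Pool.Agent.Q248.GH

/-- twice the signed area of the triangle `a b c` -/
def D (a b c : ℝ × ℝ) : ℝ := (b.1 - a.1) * (c.2 - a.2) - (b.2 - a.2) * (c.1 - a.1)

/-- the segments `a b` and `c d` cross (in terms of orientations) -/
def X (a b c d : ℝ × ℝ) : Prop := D a b c * D a b d < 0 ∧ D c d a * D c d b < 0

theorem D_cyc (a b c : ℝ × ℝ) : D b c a = D a b c := by unfold D; ring
theorem D_cyc' (a b c : ℝ × ℝ) : D c a b = D a b c := by unfold D; ring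
theorem D_swap (a b c : ℝ × ℝ) : D a c b = - D a b c := by unfold D; ring
theorem D_swap' (a b c : ℝ × ℝ) : D b a c = - D a b c := by unfold D; ring
theorem D_rev (a b c : ℝ × ℝ) : D c b a = - D a b c := by unfold D; ring
theorem D_left (a c : ℝ × ℝ) : D a a c = 0 := by unfold D; ring
theorem D_right (a b : ℝ × ℝ) : D a b b = 0 := by unfold D; ring
theorem D_mid (a b : ℝ × ℝ) : D a b a = 0 := by unfold D; ring

theorem D_four (a b c d : ℝ × ℝ) : D a b c + D a c d = D a b d + D b c d := by unfold D; ring

theorem X_symm {a b c d : ℝ × ℝ} (h : X a b c d) : X c d a b := ⟨h.2, h.1⟩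

theorem X_swap {a b c d : ℝ × ℝ} (h : X a b c d) : X b a c d := by
  refine ⟨?_, ?_⟩
  · rw [D_swap' a b c, D_swap' a b d]; linarith [h.1, neg_mul_neg (D a b c) (D a b d)]
  · rw [mul_comm]; exact h.2

theorem X_swap' {a b c d : ℝ × ℝ} (h : X a b c d) : X a b d c := X_symm (X_swap (X_symm h))

/-- the affine combination -/
theorem D_comb (a b c d : ℝ × ℝ) (s t : ℝ) (h : s + t = 1) :
    D a b (s • c + t • d) = s * D a b c + t * D a b d := by
  have : s = 1 - t := by linarith
  subst this
  simp only [D, Prod.fst_add, Prod.snd_add, Prod.smul_fst, Prod.smul_snd, smul_eq_mul]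
  ring

theorem D_on (a b : ℝ × ℝ) (s t : ℝ) (h : s + t = 1) : D a b (s • a + t • b) = 0 := by
  rw [D_comb _ _ _ _ _ _ h, D_mid, D_right]; ring

/-- crossing segments have a common interior point -/
theorem X_point {a b c d : ℝ × ℝ} (h : X a b c d) :
    ∃ z, z ∈ openSegment ℝ a b ∧ z ∈ openSegment ℝ c d := by
  obtain ⟨h1, h2⟩ := h
  set P := D a b c with hP
  set Q := D a b d with hQ
  set R := D c d a with hR
  set S := D c d b with hS
  have hPQ : P - Q ≠ 0 := by
    intro h0
    have : P = Q := by linarith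
    rw [this] at h1
    nlinarith [mul_self_nonneg Q]
  have key : S - R = P - Q := by
    rw [hP, hQ, hR, hS]; unfold D; ring
  -- weights
  have w1 : 0 < P / (P - Q) := by
    rcases mul_neg_iff.1 h1 with ⟨p, q⟩ | ⟨p, q⟩
    · exact div_pos p (by linarith)
    · exact div_pos_of_neg_of_neg p (by linarith)
  have w2 : 0 < -Q / (P - Q) := by
    rcases mul_neg_iff.1 h1 with ⟨p, q⟩ | ⟨p, q⟩
    · exact div_pos (by linarith) (by linarith)
    · exact div_pos_of_neg_of_neg (by linarith) (by linarith)
  have w3 : 0 < -R / (P - Q) := by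
    rw [← key]
    rcases mul_neg_iff.1 h2 with ⟨p, q⟩ | ⟨p, q⟩
    · exact div_pos_of_neg_of_neg (by linarith) (by linarith)
    · exact div_pos (by linarith) (by linarith)
  have w4 : 0 < S / (P - Q) := by
    rw [← key]
    rcases mul_neg_iff.1 h2 with ⟨p, q⟩ | ⟨p, q⟩
    · exact div_pos_of_neg_of_neg (by linarith) (by linarith)
    · exact div_pos (by linarith) (by linarith)
  refine ⟨(S / (P - Q)) • a + (-R / (P - Q)) • b, ⟨_, _, w4, w3, ?_, rfl⟩,
    ⟨(-Q / (P - Q)), (P / (P - Q)), w2, w1, ?_, ?_⟩⟩
  · rw [← add_div, ← key]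
    have : S - R ≠ 0 := by rw [key]; exact hPQ
    rw [show S + -R = S - R by ring]; exact div_self this
  · rw [← add_div, show -Q + P = P - Q by ring]; exact div_self hPQ
  · ext
    · simp only [Prod.fst_add, Prod.smul_fst, smul_eq_mul]
      field_simp
      rw [hP, hQ, hR, hS]; unfold D; ring
    · simp only [Prod.snd_add, Prod.smul_snd, smul_eq_mul]
      field_simp
      rw [hP, hQ, hR, hS]; unfold D; ring

/-- two segments in general position with a common point (all four end points are not on the line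
of the other segment) -/
theorem X_of_point {a b c d z : ℝ × ℝ} (h1 : D a b c ≠ 0) (h2 : D a b d ≠ 0) (h3 : D c d a ≠ 0)
    (h4 : D c d b ≠ 0) (hz : z ∈ segment ℝ a b) (hz' : z ∈ segment ℝ c d) : X a b c d := by
  obtain ⟨s, t, hs, ht, hst, rfl⟩ := hz
  obtain ⟨s', t', hs', ht', hst', he⟩ := hz'
  have e1 : s' * D a b c + t' * D a b d = 0 := by
    rw [← D_comb _ _ _ _ _ _ hst', he, D_on _ _ _ _ hst]
  have e2 : s * D c d a + t * D c d b = 0 := by
    rw [← D_comb _ _ _ _ _ _ hst, ← he, D_on _ _ _ _ hst']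
  refine ⟨?_, ?_⟩
  · by_contra hc
    push Not at hc
    have hc' : 0 < D a b c * D a b d := lt_of_le_of_ne hc (Ne.symm (mul_ne_zero h1 h2))
    rcases mul_pos_iff.1 hc' with ⟨p, q⟩ | ⟨p, q⟩
    · have : 0 < s' * D a b c + t' * D a b d := by
        rcases hs'.eq_or_lt with h | h
        · rw [← h]; have : t' = 1 := by linarith
          rw [this]; linarith
        · nlinarith [mul_pos h p, mul_nonneg ht' q.le]
      linarith
    · have : s' * D a b c + t' * D a b d < 0 := by
        rcases hs'.eq_or_lt with h | h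
        · rw [← h]; have : t' = 1 := by linarith
          rw [this]; linarith
        · nlinarith [mul_neg_of_pos_of_neg h p, mul_nonneg ht' (neg_nonneg.2 q.le)]
      linarith
  · by_contra hc
    push Not at hc
    have hc' : 0 < D c d a * D c d b := lt_of_le_of_ne hc (Ne.symm (mul_ne_zero h3 h4))
    rcases mul_pos_iff.1 hc' with ⟨p, q⟩ | ⟨p, q⟩
    · have : 0 < s * D c d a + t * D c d b := by
        rcases hs.eq_or_lt with h | h
        · rw [← h]; have : t = 1 := by linarith
          rw [this]; linarith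
        · nlinarith [mul_pos h p, mul_nonneg ht q.le]
      linarith
    · have : s * D c d a + t * D c d b < 0 := by
        rcases hs.eq_or_lt with h | h
        · rw [← h]; have : t = 1 := by linarith
          rw [this]; linarith
        · nlinarith [mul_neg_of_pos_of_neg h p, mul_nonneg ht (neg_nonneg.2 q.le)]
      linarith

/-- `D a b` is nonnegative/positive on convex hulls -/
theorem D_pos_hull {a b : ℝ × ℝ} {s : Set (ℝ × ℝ)} (h : ∀ z ∈ s, 0 < D a b z) {q : ℝ × ℝ}
    (hq : q ∈ convexHull ℝ s) : 0 < D a b q := by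
  have hc : Convex ℝ {z : ℝ × ℝ | 0 < D a b z} := by
    intro x hx y hy s t hs ht hst
    simp only [Set.mem_setOf_eq] at *
    rw [D_comb _ _ _ _ _ _ hst]
    rcases hs.eq_or_lt with h | h
    · rw [← h]; have : t = 1 := by linarith
      rw [this]; linarith
    · nlinarith [mul_pos h hx, mul_nonneg ht hy.le]
  exact convexHull_min (fun z hz => h z hz) hc hq

end Pool.Agent.Q248.GH
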