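import Pool.Agent.Q248.GH.Upper

/-!
The upper bound for the number of pairwise noncrossing segments.
-/

namespace Pool.Agent.Q248.GH

open Finset

variable {V : Type} [Fintype V] [DecidableEq V] {p : V → ℝ × ℝ}

theorem eq_of_right (gp : GP p) {e f : V × V} (he : Ord p e) (hf : Ord p f) (h2 : e.2 = f.2)
    (hs : sl p e = sl p f) : e = f := by
  by_contra hne
  have h1 : f.1 ≠ e.1 := fun h => hne (Prod.ext h.symm h2)
  have h3 : f.1 ≠ e.2 := by
    rw [h2]; intro h; unfold Ord at hf; rw [h] at hf; exact lt_irrefl _ hf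
  refine ln_ne gp he h1 h3 ?_
  have a1 := ln_diff (p := p) e (p e.2).1 (p f.1).1
  have a2 := ln_diff (p := p) f (p f.2).1 (p f.1).1
  rw [ln_right he] at a1
  rw [ln_right hf, ln_left] at a2
  rw [← h2, ← hs] at a2
  linarith

theorem eq_of_left (gp : GP p) {e f : V × V} (he : Ord p e) (hf : Ord p f) (h1 : e.1 = f.1)
    (hs : sl p e = sl p f) : e = f := by
  by_contra hne
  have h2 : f.2 ≠ e.2 := fun h => hne (Prod.ext h1 h.symm)
  have h3 : f.2 ≠ e.1 := by
    rw [h1]; intro h; unfold Ord at hf; rw [h] at hf; exact lt_irrefl _ hf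
  refine ln_ne gp he h3 h2 ?_
  have a1 := ln_diff (p := p) e (p e.1).1 (p f.2).1
  have a2 := ln_diff (p := p) f (p f.1).1 (p f.2).1
  rw [ln_left] at a1
  rw [ln_right hf, ln_left] at a2
  rw [← h1, ← hs] at a2
  linarith

/-- the next vertex of the upper hull -/
def IsNext (p : V → ℝ × ℝ) (u v : V) : Prop := (p u).1 < (p v).1 ∧
  ∀ w, (p u).1 < (p w).1 → sl p (u, w) ≤ sl p (u, v)

theorem exists_next (u : V) (h : ∃ v, (p u).1 < (p v).1) : ∃ v, IsNext p u v := by
  obtain ⟨v, hv, hm⟩ := Finset.exists_max_image
    ((Finset.univ : Finset V).filter (fun v => (p u).1 < (p v).1)) (fun v => sl p (u, v)) (by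
      obtain ⟨v, hv⟩ := h
      exact ⟨v, Finset.mem_filter.2 ⟨Finset.mem_univ _, hv⟩⟩)
  rw [Finset.mem_filter] at hv
  exact ⟨v, hv.2, fun w hw => hm w (Finset.mem_filter.2 ⟨Finset.mem_univ _, hw⟩)⟩

/-- all points are below the line of an upper hull edge -/
theorem below_next (gp : GP p) (hx : Function.Injective fun i => (p i).1) {u v : V}
    (hu : UP p u) (h : IsNext p u v) (z : V) : (p z).2 ≤ ln p (u, v) (p z).1 := by
  rcases lt_trichotomy (p z).1 (p u).1 with hz | hz | hz
  · have h1 := hu z v hz h.1
    have o1 : Ord p (z, v) := lt_trans hz h.1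
    have o2 : Ord p (u, v) := h.1
    have e1 := D_ln o1 u
    have e2 := D_ln o2 z
    simp only at e1 e2
    have e3 : D (p z) (p v) (p u) = - D (p u) (p v) (p z) := by unfold D; ring
    rw [e3, e2] at e1
    have q1 : 0 < (p v).1 - (p z).1 := sub_pos.2 o1
    have q2 : 0 < (p v).1 - (p u).1 := sub_pos.2 o2
    have q3 : 0 < ((p v).1 - (p z).1) * ((p u).2 - ln p (z, v) (p u).1) :=
      mul_pos q1 (by linarith)
    by_contra hc
    push Not at hc
    have : 0 < ((p v).1 - (p u).1) * ((p z).2 - ln p (u, v) (p z).1) := mul_pos q2 (by linarith)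
    linarith
  · have : z = u := hx hz
    subst this
    have := ln_left (p := p) (z, v)
    simp only at this
    rw [this]
  · have h1 := h.2 z hz
    have o1 : Ord p (u, z) := hz
    have e1 := ln_right o1
    have e2 := ln_diff (p := p) (u, z) (p u).1 (p z).1
    have e3 := ln_diff (p := p) (u, v) (p u).1 (p z).1
    have e4 := ln_left (p := p) (u, z)
    have e5 := ln_left (p := p) (u, v)
    simp only at e1 e2 e3 e4 e5
    have : sl p (u, z) * ((p z).1 - (p u).1) ≤ sl p (u, v) * ((p z).1 - (p u).1) :=
      mul_le_mul_of_nonneg_right h1 (by linarith)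
    linarith

theorem nc_next (gp : GP p) (hx : Function.Injective fun i => (p i).1) {u v : V}
    (hu : UP p u) (h : IsNext p u v) {f : V × V} (hf : Ord p f) (hne : f ≠ (u, v)) :
    NC p (u, v) f := by
  intro r h1 h2 h3 h4 h5
  have o2 : Ord p (u, v) := h.1
  have b1 := below_next gp hx hu h f.1
  have b2 := below_next gp hx hu h f.2
  set κ := sl p (u, v) - sl p f with hκ
  have c1 : ln p (u, v) (p f.1).1 - (p f.1).2 = κ * ((p f.1).1 - r) := by
    have e1 := ln_diff (p := p) (u, v) r (p f.1).1
    have e2 := ln_diff (p := p) f r (p f.1).1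
    rw [ln_left] at e2
    rw [hκ]; linarith
  have c2 : ln p (u, v) (p f.2).1 - (p f.2).2 = κ * ((p f.2).1 - r) := by
    have e1 := ln_diff (p := p) (u, v) r (p f.2).1
    have e2 := ln_diff (p := p) f r (p f.2).1
    rw [ln_right hf] at e2
    rw [hκ]; linarith
  have hk : κ = 0 := by
    rcases lt_trichotomy κ 0 with hk | hk | hk
    · have : κ * ((p f.2).1 - r) < 0 := mul_neg_of_neg_of_pos hk (by linarith)
      linarith
    · exact hk
    · have : κ * ((p f.1).1 - r) < 0 := mul_neg_of_pos_of_neg hk (by linarith)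
      linarith
  rw [hk, zero_mul] at c1 c2
  have d1 : f.1 = u ∨ f.1 = v := by
    by_contra hc
    push Not at hc
    exact ln_ne gp o2 hc.1 hc.2 (by linarith)
  have d2 : f.2 = u ∨ f.2 = v := by
    by_contra hc
    push Not at hc
    exact ln_ne gp o2 hc.1 hc.2 (by linarith)
  have hf' : (p f.1).1 < (p f.2).1 := hf
  have o2' : (p u).1 < (p v).1 := h.1
  rcases d1 with d1 | d1 <;> rcases d2 with d2 | d2
  · rw [d1, d2] at hf'; exact lt_irrefl _ hf'
  · exact hne (Prod.ext d1 d2)
  · rw [d1, d2] at hf'; exact lt_asymm hf' o2'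
  · rw [d1, d2] at hf'; exact lt_irrefl _ hf'

open Classical in
/-- the bound for sets that contain the upper hull edges -/
theorem count_aux (gp : GP p) (hx : Function.Injective fun i => (p i).1) [Nonempty V]
    {E : Finset (V × V)} (hord : ∀ e ∈ E, Ord p e) (hnc : ∀ e ∈ E, ∀ f ∈ E, e ≠ f → NC p e f)
    (hull : ∀ u, UP p u → (∃ v, (p u).1 < (p v).1) → ∃ v, IsNext p u v ∧ (u, v) ∈ E) :
    E.card + ((univ : Finset V).filter (fun w => UP p w)).card +
      ((univ : Finset V).filter (fun w => LO p w)).card + 1 ≤ 3 * Fintype.card V := by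
  obtain ⟨vm, -, hvm⟩ := Finset.exists_min_image (univ : Finset V) (fun w => (p w).1)
    Finset.univ_nonempty
  obtain ⟨vM, -, hvM⟩ := Finset.exists_max_image (univ : Finset V) (fun w => (p w).1)
    Finset.univ_nonempty
  set TL := E.filter (fun e => ∀ f ∈ E, f.2 = e.2 → sl p e ≤ sl p f) with hTL
  set TR := E.filter (fun e => ∀ f ∈ E, f.1 = e.1 → sl p f ≤ sl p e) with hTR
  set R := E.filter (fun e => (∃ k ∈ E, k.2 = e.2 ∧ sl p k < sl p e) ∧
    ∃ g ∈ E, g.1 = e.1 ∧ sl p e < sl p g) with hR
  have cTL : TL.card + 1 ≤ Fintype.card V := by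
    have : TL.card ≤ ((univ : Finset V).erase vm).card := by
      refine Finset.card_le_card_of_injOn (fun e => e.2) ?_ ?_
      · intro e he
        rw [hTL] at he
        have he' := (Finset.mem_filter.1 (Finset.mem_coe.1 he)).1
        have ho : (p e.1).1 < (p e.2).1 := hord e he'
        have := hvm e.1 (Finset.mem_univ _)
        refine Finset.mem_coe.2 (Finset.mem_erase.2 ⟨?_, Finset.mem_univ _⟩)
        rintro h
        rw [show e.2 = vm from h] at ho
        linarith
      · intro e he f hf hef
        have h1 := Finset.mem_filter.1 (Finset.mem_coe.1 he)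
        have h2 := Finset.mem_filter.1 (Finset.mem_coe.1 hf)
        exact eq_of_right gp (hord e h1.1) (hord f h2.1) hef
          (le_antisymm (h1.2 f h2.1 hef.symm) (h2.2 e h1.1 hef))
    rw [Finset.card_erase_of_mem (Finset.mem_univ _), Finset.card_univ] at this
    have : 0 < Fintype.card V := Fintype.card_pos
    omega
  have cTR : TR.card + 1 ≤ Fintype.card V := by
    have : TR.card ≤ ((univ : Finset V).erase vM).card := by
      refine Finset.card_le_card_of_injOn (fun e => e.1) ?_ ?_
      · intro e he
        have he' := (Finset.mem_filter.1 (Finset.mem_coe.1 he)).1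
        have ho : (p e.1).1 < (p e.2).1 := hord e he'
        have := hvM e.2 (Finset.mem_univ _)
        refine Finset.mem_coe.2 (Finset.mem_erase.2 ⟨?_, Finset.mem_univ _⟩)
        rintro h
        rw [show e.1 = vM from h] at ho
        linarith
      · intro e he f hf hef
        have h1 := Finset.mem_filter.1 (Finset.mem_coe.1 he)
        have h2 := Finset.mem_filter.1 (Finset.mem_coe.1 hf)
        exact eq_of_left gp (hord e h1.1) (hord f h2.1) hef
          (le_antisymm (h2.2 e h1.1 hef) (h1.2 f h2.1 hef.symm))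
    rw [Finset.card_erase_of_mem (Finset.mem_univ _), Finset.card_univ] at this
    have : 0 < Fintype.card V := Fintype.card_pos
    omega
  have cI : ((univ : Finset V).filter (fun w => UP p w)).card ≤ (TL ∩ TR).card + 1 := by
    have hex : ∀ u : V, ∃ v : V, UP p u → u ≠ vM → IsNext p u v ∧ (u, v) ∈ E := by
      intro u
      by_cases h : UP p u ∧ u ≠ vM
      · have h1 : ∃ v, (p u).1 < (p v).1 := by
          refine ⟨vM, lt_of_le_of_ne (hvM u (Finset.mem_univ _)) ?_⟩
          intro h2
          exact h.2 (hx h2)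
        obtain ⟨v, hv⟩ := hull u h.1 h1
        exact ⟨v, fun _ _ => hv⟩
      · exact ⟨u, fun h1 h2 => absurd ⟨h1, h2⟩ h⟩
    choose φ hφ using hex
    have : (((univ : Finset V).filter (fun w => UP p w)).erase vM).card ≤ (TL ∩ TR).card := by
      refine Finset.card_le_card_of_injOn (fun u => (u, φ u)) ?_ ?_
      · intro u hu
        have hu' := Finset.mem_erase.1 (Finset.mem_coe.1 hu)
        have hu1 := (Finset.mem_filter.1 hu'.2).2
        obtain ⟨h1, h2⟩ := hφ u hu1 hu'.1
        refine Finset.mem_coe.2 (Finset.mem_inter.2 ⟨Finset.mem_filter.2 ⟨h2, ?_⟩,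
          Finset.mem_filter.2 ⟨h2, ?_⟩⟩)
        · intro f hf hf2
          have hf2' : f.2 = φ u := hf2
          have of : (p f.1).1 < (p f.2).1 := hord f hf
          have hb := below_next gp hx hu1 h1 f.1
          have ou : Ord p (u, φ u) := h1.1
          have e1 := ln_diff (p := p) (u, φ u) (p (φ u)).1 (p f.1).1
          have e2 := ln_right ou
          have e3 := ln_diff (p := p) f (p f.2).1 (p f.1).1
          rw [ln_right of, ln_left] at e3
          simp only at e1 e2
          rw [hf2'] at e3 of
          by_contra hc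
          push Not at hc
          have : (sl p f - sl p (u, φ u)) * ((p f.1).1 - (p (φ u)).1) > 0 :=
            mul_pos_of_neg_of_neg (by linarith) (by linarith)
          linarith
        · intro f hf hf1
          have of : (p f.1).1 < (p f.2).1 := hord f hf
          have hf1' : f.1 = u := hf1
          have := h1.2 f.2 (by rw [← hf1']; exact of)
          have hf' : f = (u, f.2) := Prod.ext hf1' rfl
          rw [hf']
          exact this
      · intro u _ v _ h
        exact (Prod.mk.inj h).1
    have h2 := Finset.pred_card_le_card_erase (s := (univ : Finset V).filter (fun w => UP p w))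
      (a := vM)
    omega
  have cR : R.card + ((univ : Finset V).filter (fun w => LO p w)).card ≤ Fintype.card V := by
    have hex : ∀ e : V × V, ∃ w : V, e ∈ R → DB p E e w := by
      intro e
      by_cases h : e ∈ R
      · have h1 := Finset.mem_filter.1 h
        obtain ⟨w, hw⟩ := exists_below gp hx hord hnc h1.1 h1.2.1 h1.2.2
        exact ⟨w, fun _ => hw⟩
      · exact ⟨e.1, fun h' => absurd h' h⟩
    choose ψ hψ using hex
    have h1 : R.card ≤ ((univ : Finset V).filter (fun w => ¬ LO p w)).card := by
      refine Finset.card_le_card_of_injOn ψ ?_ ?_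
      · intro e he
        obtain ⟨a1, a2, a3, -⟩ := hψ e (Finset.mem_coe.1 he)
        refine Finset.mem_coe.2 (Finset.mem_filter.2 ⟨Finset.mem_univ _, ?_⟩)
        intro h
        have := h e.1 e.2 a1 a2
        exact lt_asymm this a3
      · intro e he f hf hef
        by_contra hne
        obtain ⟨a1, a2, a3, a4⟩ := hψ e (Finset.mem_coe.1 he)
        obtain ⟨b1, b2, b3, b4⟩ := hψ f (Finset.mem_coe.1 hf)
        rw [← hef] at b1 b2 b3 b4
        have he' := (Finset.mem_filter.1 (Finset.mem_coe.1 he)).1
        have hf' := (Finset.mem_filter.1 (Finset.mem_coe.1 hf)).1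
        have c1 := a4 f hf' b1 b2 b3
        have c2 := b4 e he' a1 a2 a3
        exact hnc e he' f hf' hne _ a1 a2 b1 b2 (le_antisymm c2 c1)
    have h2 := Finset.card_filter_add_card_filter_not (s := (univ : Finset V)) (fun w => LO p w)
    rw [Finset.card_univ] at h2
    omega
  have cE : E.card ≤ (TL ∪ TR).card + R.card := by
    refine le_trans (Finset.card_le_card ?_) (Finset.card_union_le _ _)
    intro e he
    by_cases h1 : e ∈ TL
    · exact Finset.mem_union_left _ (Finset.mem_union_left _ h1)
    by_cases h2 : e ∈ TR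
    · exact Finset.mem_union_left _ (Finset.mem_union_right _ h2)
    refine Finset.mem_union_right _ (Finset.mem_filter.2 ⟨he, ?_, ?_⟩)
    · by_contra hc
      push Not at hc
      exact h1 (Finset.mem_filter.2 ⟨he, hc⟩)
    · by_contra hc
      push Not at hc
      exact h2 (Finset.mem_filter.2 ⟨he, hc⟩)
  have cU := Finset.card_union_add_card_inter TL TR
  omega

open Classical in
theorem count (gp : GP p) (hx : Function.Injective fun i => (p i).1) [Nonempty V]
    {E : Finset (V × V)} (hord : ∀ e ∈ E, Ord p e) (hnc : ∀ e ∈ E, ∀ f ∈ E, e ≠ f → NC p e f) :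
    E.card + ((univ : Finset V).filter (fun w => UP p w)).card +
      ((univ : Finset V).filter (fun w => LO p w)).card + 1 ≤ 3 * Fintype.card V := by
  set H := (univ : Finset (V × V)).filter (fun e => UP p e.1 ∧ IsNext p e.1 e.2) with hH
  have h1 : ∀ e ∈ E ∪ H, Ord p e := by
    intro e he
    rcases Finset.mem_union.1 he with he | he
    · exact hord e he
    · exact (Finset.mem_filter.1 he).2.2.1
  have h2 : ∀ e ∈ E ∪ H, ∀ f ∈ E ∪ H, e ≠ f → NC p e f := by
    intro e he f hf hne
    rcases Finset.mem_union.1 he with he' | he'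
    · rcases Finset.mem_union.1 hf with hf' | hf'
      · exact hnc e he' f hf' hne
      · have := (Finset.mem_filter.1 hf').2
        exact nc_symm (nc_next gp hx this.1 this.2 (h1 e he) hne)
    · have := (Finset.mem_filter.1 he').2
      exact nc_next gp hx this.1 this.2 (h1 f hf) hne.symm
  have h3 := count_aux gp hx h1 h2 (by
    intro u hu hv
    obtain ⟨v, hv⟩ := exists_next u hv
    exact ⟨v, hv, Finset.mem_union_right _ (Finset.mem_filter.2 ⟨Finset.mem_univ _, hu, hv⟩)⟩)
  have h4 : E.card ≤ (E ∪ H).card := Finset.card_le_card Finset.subset_union_left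
  omega

end Pool.Agent.Q248.GH
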