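import Pool.Agent.Q248.GH.Main

/-!
The rigidity theorem, final form.
-/

namespace Pool.Agent.Q248.GH

open Finset

variable {V : Type} [Fintype V] [DecidableEq V] {p q : V → ℝ × ℝ}

theorem mini_empty (gp : GP p) (gq : GP q)
    (hle : ∀ a b c d, X (p a) (p b) (p c) (p d) → X (q a) (q b) (q c) (q d)) {a b c d : V}
    (hM : Mini p q a b c d) (x : V) (hx : x ∉ ({a, b, c, d} : Finset V)) :
    q x ∉ convexHull ℝ (q '' (({a, b, c, d} : Finset V) : Set V)) := by
  intro h
  simp only [Finset.mem_insert, Finset.mem_singleton, not_or] at hx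
  obtain ⟨xa, xb, xc, xd⟩ := hx
  have him : q '' (({a, b, c, d} : Finset V) : Set V) = {q a, q b, q c, q d} := by
    simp [Set.image_insert_eq]
  rw [him] at h
  obtain ⟨n1, n2, n3, n4, n5, n6⟩ := X_ne hM.hX
  have n1 : a ≠ b := fun h => n1 (by rw [h])
  have n6 : c ≠ d := fun h => n6 (by rw [h])
  have hX := hM.hX
  have d1 : D (q c) (q d) (q x) ≠ 0 := gq c d x n6 (Ne.symm xc) (Ne.symm xd)
  have d2 : D (q a) (q b) (q x) ≠ 0 := gq a b x n1 (Ne.symm xa) (Ne.symm xb)
  -- the side of `c d`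
  have side : ∀ u v w : ℝ, v * w < 0 → u ≠ 0 → 0 < u * v ∨ 0 < u * w := by
    intro u v w h1 h2
    by_contra hc
    push Not at hc
    have h3 : 0 ≤ (u * v) * (u * w) := mul_nonneg_of_nonpos_of_nonpos hc.1 hc.2
    have h4 : (u * v) * (u * w) = u ^ 2 * (v * w) := by ring
    rw [h4] at h3
    have h5 : 0 < u ^ 2 := by positivity
    have := mul_neg_of_pos_of_neg h5 h1
    linarith
  have perm1 : ({q a, q b, q c, q d} : Set (ℝ × ℝ)) = {q b, q a, q c, q d} := by
    rw [Set.insert_comm]
  have perm2 : ({q a, q b, q c, q d} : Set (ℝ × ℝ)) = {q a, q b, q d, q c} := by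
    rw [Set.pair_comm]
  have perm3 : ({q a, q b, q c, q d} : Set (ℝ × ℝ)) = {q b, q a, q d, q c} := by
    rw [Set.insert_comm, Set.pair_comm]
  rcases side _ _ _ hX.2 d1 with s1 | s1 <;> rcases side _ _ _ hX.1 d2 with s2 | s2
  · exact no_inside gp gq hle hM xa xb xc xd h s1 s2
  · refine no_inside gp gq hle hM.swap' xa xb xd xc (perm2 ▸ h) ?_ s2
    have e1 : D (q d) (q c) (q x) = - D (q c) (q d) (q x) := by unfold D; ring
    have e2 : D (q d) (q c) (q a) = - D (q c) (q d) (q a) := by unfold D; ring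
    rw [e1, e2, neg_mul_neg]
    exact s1
  · refine no_inside gp gq hle hM.swap xb xa xc xd (perm1 ▸ h) s1 ?_
    have e1 : D (q b) (q a) (q x) = - D (q a) (q b) (q x) := by unfold D; ring
    have e2 : D (q b) (q a) (q c) = - D (q a) (q b) (q c) := by unfold D; ring
    rw [e1, e2, neg_mul_neg]
    exact s2
  · refine no_inside gp gq hle hM.swap.swap' xb xa xd xc (perm3 ▸ h) ?_ ?_
    · have e1 : D (q d) (q c) (q x) = - D (q c) (q d) (q x) := by unfold D; ring
      have e2 : D (q d) (q c) (q b) = - D (q c) (q d) (q b) := by unfold D; ring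
      rw [e1, e2, neg_mul_neg]
      exact s1
    · have e1 : D (q b) (q a) (q x) = - D (q a) (q b) (q x) := by unfold D; ring
      have e2 : D (q b) (q a) (q d) = - D (q a) (q b) (q d) := by unfold D; ring
      rw [e1, e2, neg_mul_neg]
      exact s2

theorem rigid (gp : GP p) (gq : GP q) (hp : Function.Injective p) (hq : Function.Injective q)
    (hle : ∀ a b c d, X (p a) (p b) (p c) (p d) → X (q a) (q b) (q c) (q d))
    (hh : hull q ≤ hull p) : ∀ a b c d, X (q a) (q b) (q c) (q d) → X (p a) (p b) (p c) (p d) := by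
  classical
  by_contra hcon
  push Not at hcon
  obtain ⟨a0, b0, c0, d0, h1, h2⟩ := hcon
  obtain ⟨⟨a, b, c, d⟩, ht, hmin⟩ := Finset.exists_min_image
    ((univ : Finset (V × V × V × V)).filter (fun t =>
      X (q t.1) (q t.2.1) (q t.2.2.1) (q t.2.2.2) ∧ ¬ X (p t.1) (p t.2.1) (p t.2.2.1) (p t.2.2.2)))
    (fun t => Ar (q t.1) (q t.2.1) (q t.2.2.1) (q t.2.2.2))
    ⟨(a0, b0, c0, d0), Finset.mem_filter.2 ⟨Finset.mem_univ _, h1, h2⟩⟩
  obtain ⟨-, hX, hn⟩ := Finset.mem_filter.1 ht
  simp only at hX hn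
  have hM : Mini p q a b c d := ⟨hX, hn, fun a' b' c' d' h3 h4 =>
    hmin (a', b', c', d') (Finset.mem_filter.2 ⟨Finset.mem_univ _, h3, h4⟩)⟩
  have hemp := mini_empty gp gq hle hM
  obtain ⟨T, hT⟩ := good_exists gq hq hX (Fintype.card V) (univ : Finset V) Finset.card_univ
    (Finset.subset_univ _) (fun w _ hw => hemp w hw)
  have hab : a ≠ b := fun h => (X_ne hX).1 (by rw [h])
  have hcd : c ≠ d := fun h => (X_ne hX).2.2.2.2.2 (by rw [h])
  have habcd : s(a, b) ≠ s(c, d) := by
    intro h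
    rcases Sym2.eq_iff.1 h with h | h
    · exact (X_ne hX).2.1 (by rw [h.1])
    · exact (X_ne hX).2.2.1 (by rw [h.1])
  have hcard : 3 * Fintype.card V ≤ T.card + hull q + 4 := by
    have h3 := hT.card
    have h4 : hS q univ = hull q := by
      unfold hS hull
      congr 1
      ext w
      simp only [Finset.mem_filter, Finset.mem_univ, true_and]
      unfold ExtS Ext
      have : ((univ.erase w : Finset V) : Set V) = {w}ᶜ := by
        ext z; simp
      rw [this]
    rw [h4, Finset.card_univ] at h3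
    exact h3
  have hcardV : 2 ≤ Fintype.card V := by
    have h3 := Finset.card_le_univ ({a, b} : Finset V)
    rwa [Finset.card_pair hab] at h3
  have hTp : ∀ x y z u, s(x, y) ∈ T → s(z, u) ∈ T → ¬ X (p x) (p y) (p z) (p u) :=
    fun x y z u h3 h4 h5 => hT.nc x y z u h3 h4 (hle _ _ _ _ h5)
  have hTab : ∀ x y, s(x, y) ∈ T → ¬ X (p x) (p y) (p a) (p b) :=
    fun x y h3 h5 => hT.nab x y h3 (hle _ _ _ _ h5)
  have hTcd : ∀ x y, s(x, y) ∈ T → ¬ X (p x) (p y) (p c) (p d) :=
    fun x y h3 h5 => hT.ncd x y h3 (hle _ _ _ _ h5)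
  have hab' : s(a, b) ∉ insert s(c, d) T := by
    intro h
    rcases Finset.mem_insert.1 h with h | h
    · exact habcd h
    · exact hT.ab h
  have hub := upper_bound gp hp hcardV (insert s(a, b) (insert s(c, d) T)) (by
    intro e he
    rcases Finset.mem_insert.1 he with rfl | he
    · rw [Sym2.mk_isDiag_iff]; exact hab
    rcases Finset.mem_insert.1 he with rfl | he
    · rw [Sym2.mk_isDiag_iff]; exact hcd
    · exact hT.diag e he) (by
    have share : ∀ {x y z u : V}, s(x, y) = s(z, u) → ¬ X (p x) (p y) (p z) (p u) := by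
      intro x y z u h h'
      rcases Sym2.eq_iff.1 h with ⟨rfl, rfl⟩ | ⟨rfl, rfl⟩
      · exact nX1 _ _ _ h'
      · exact nX2 _ _ _ h'
    have tr : ∀ {x y z u z' u' : V}, s(z, u) = s(z', u') → X (p x) (p y) (p z) (p u) →
        X (p x) (p y) (p z') (p u') := by
      intro x y z u z' u' h h'
      rcases Sym2.eq_iff.1 h with ⟨rfl, rfl⟩ | ⟨rfl, rfl⟩
      · exact h'
      · exact X_swap' h'
    intro x y z u h3 h4 h5
    rcases Finset.mem_insert.1 h3 with h3 | h3
    · rcases Finset.mem_insert.1 h4 with h4 | h4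
      · exact share (h3.trans h4.symm) h5
      rcases Finset.mem_insert.1 h4 with h4 | h4
      · exact hn (X_symm (tr h3 (X_symm (tr h4 h5))))
      · exact hTab z u h4 (tr h3 (X_symm h5))
    rcases Finset.mem_insert.1 h3 with h3 | h3
    · rcases Finset.mem_insert.1 h4 with h4 | h4
      · exact hn (X_symm (tr h4 h5 |> fun h => X_symm (tr h3 (X_symm h))))
      rcases Finset.mem_insert.1 h4 with h4 | h4
      · exact share (h3.trans h4.symm) h5
      · exact hTcd z u h4 (tr h3 (X_symm h5))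
    · rcases Finset.mem_insert.1 h4 with h4 | h4
      · exact hTab x y h3 (tr h4 h5)
      rcases Finset.mem_insert.1 h4 with h4 | h4
      · exact hTcd x y h3 (tr h4 h5)
      · exact hTp x y z u h3 h4 h5)
  rw [Finset.card_insert_of_notMem hab', Finset.card_insert_of_notMem hT.cd] at hub
  omega

end Pool.Agent.Q248.GH
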