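import Pool.Agent.Q248.GH.UpperBound

/-!
Around an empty convex quadrilateral there are many pairwise noncrossing segments.
-/

namespace Pool.Agent.Q248.GH

open Finset

theorem nX1 (a b c : ℝ × ℝ) : ¬ X a b a c := fun h => by
  have := h.1; rw [D_mid, zero_mul] at this; exact lt_irrefl _ this
theorem nX2 (a b c : ℝ × ℝ) : ¬ X a b c a := fun h => nX1 a b c (X_swap' h)
theorem nX3 (a b c : ℝ × ℝ) : ¬ X b a a c := fun h => nX1 a b c (X_swap h)
theorem nX4 (a b c : ℝ × ℝ) : ¬ X b a c a := fun h => nX1 a b c (X_swap (X_swap' h))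

theorem X_ne {a b c d : ℝ × ℝ} (h : X a b c d) : a ≠ b ∧ a ≠ c ∧ a ≠ d ∧ b ≠ c ∧ b ≠ d ∧ c ≠ d := by
  refine ⟨?_, ?_, ?_, ?_, ?_, ?_⟩
  · rintro rfl; have := h.1; rw [D_left, zero_mul] at this; exact lt_irrefl _ this
  · rintro rfl; exact nX1 _ _ _ h
  · rintro rfl; exact nX2 _ _ _ h
  · rintro rfl; exact nX3 _ _ _ h
  · rintro rfl; exact nX4 _ _ _ h
  · rintro rfl; have := h.2; rw [D_left, zero_mul] at this; exact lt_irrefl _ this

/-- at most one of the three pairs of opposite segments crosses -/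
theorem X_unique {a b c d : ℝ × ℝ} (h : X a b c d) : ¬ X a c b d := by
  rintro ⟨h1, -⟩
  obtain ⟨h3, h4⟩ := h
  have e := D_four a b c d
  rw [D_swap a b c] at h1
  have e1 : D c d a = D a c d := by unfold D; ring
  have e2 : D c d b = D b c d := by unfold D; ring
  rw [e1, e2] at h4
  rcases mul_neg_iff.1 h3 with ⟨p, q⟩ | ⟨p, q⟩
  · have : 0 < D a c d := by
      by_contra hc
      push Not at hc
      have : 0 ≤ -D a b c * D a c d := by nlinarith
      linarith
    have : D b c d < 0 := by
      by_contra hc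
      push Not at hc
      have : 0 ≤ D a c d * D b c d := by positivity
      linarith
    linarith
  · have : D a c d < 0 := by
      by_contra hc
      push Not at hc
      have : 0 ≤ -D a b c * D a c d := by nlinarith
      linarith
    have : 0 < D b c d := by
      by_contra hc
      push Not at hc
      have : 0 ≤ D a c d * D b c d := by nlinarith
      linarith
    linarith

theorem X_unique' {a b c d : ℝ × ℝ} (h : X a b c d) : ¬ X a d b c := fun h' =>
  X_unique (X_swap' h) h'

theorem ext_of_X {a b c d : ℝ × ℝ} (h : X a b c d) : a ∉ convexHull ℝ {b, c, d} := by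
  intro ha
  have hc : Convex ℝ {z : ℝ × ℝ | 0 ≤ D c d z * D c d b} := by
    intro x hx y hy s t hs ht hst
    have hx' : 0 ≤ D c d x * D c d b := hx
    have hy' : 0 ≤ D c d y * D c d b := hy
    change 0 ≤ D c d (s • x + t • y) * D c d b
    rw [D_comb _ _ _ _ _ _ hst]
    have : (s * D c d x + t * D c d y) * D c d b = s * (D c d x * D c d b) +
      t * (D c d y * D c d b) := by ring
    rw [this]
    positivity
  have := convexHull_min (s := {b, c, d}) (by
    rintro z (rfl | rfl | rfl)
    · exact mul_self_nonneg (D c d z)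
    · change 0 ≤ D z d z * D z d b
      rw [D_mid, zero_mul]
    · change 0 ≤ D c z z * D c z b
      rw [D_right, zero_mul]) hc ha
  have h2 : 0 ≤ D c d a * D c d b := this
  linarith [h.2]

theorem ext_of_tangent {w v : ℝ × ℝ} (hwv : v ≠ w) {A : Set (ℝ × ℝ)}
    (h : (∀ z ∈ A, 0 < D w v z) ∨ (∀ z ∈ A, 0 < D v w z)) : v ∉ convexHull ℝ (insert w A) := by
  intro hv
  rcases A.eq_empty_or_nonempty with hA | hA
  · rw [hA, insert_empty_eq, convexHull_singleton] at hv
    exact hwv (Set.mem_singleton_iff.1 hv)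
  · rw [convexHull_insert hA, mem_convexJoin] at hv
    obtain ⟨w', hw', q, hq, s, t, hs, ht, hst, he⟩ := hv
    have hw'' : w' = w := Set.mem_singleton_iff.1 hw'
    subst hw''
    have h1 : D w' v (s • w' + t • q) = 0 := by rw [he, D_right]
    rw [D_comb _ _ _ _ _ _ hst, D_mid, mul_zero, zero_add] at h1
    have h2 : D w' v q ≠ 0 := by
      rcases h with h | h
      · have := D_pos_hull h hq
        intro h0
        linarith
      · have := D_pos_hull h hq
        rw [D_swap'] at this
        intro h0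
        linarith
    have ht0 : t = 0 := (mul_eq_zero.1 h1).resolve_right h2
    have hs1 : s = 1 := by linarith
    apply hwv
    rw [← he, ht0, hs1]
    simp

theorem lost_lemma {w v z : ℝ × ℝ} {A : Set (ℝ × ℝ)} (hA : v ∉ convexHull ℝ A)
    (hv : v ∈ convexHull ℝ (insert w A)) (hwv : v ≠ w) (hz : z ∈ openSegment ℝ w v)
    (hzA : z ∈ convexHull ℝ A) : False := by
  have hAne : A.Nonempty := convexHull_nonempty_iff.1 ⟨z, hzA⟩
  rw [convexHull_insert hAne, mem_convexJoin] at hv
  obtain ⟨w', hw', q, hq, s, t, hs, ht, hst, he⟩ := hv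
  have hw'' : w' = w := hw'
  subst hw''
  obtain ⟨a, b, ha, hb, hab, rfl⟩ := hz
  have ht0 : 0 < t := by
    rcases ht.eq_or_lt with h | h
    · exfalso
      apply hwv
      rw [← he, ← h]
      have : s = 1 := by linarith
      rw [this]
      simp
    · exact h
  apply hA
  -- `v = (s z + a t q) / (s + a t)`
  have hpos : 0 < s + a * t := by positivity
  have hpos' := ne_of_gt hpos
  have hv : v = (s / (s + a * t)) • (a • w' + b • v) + (a * t / (s + a * t)) • q := by
    have h1 : (s + a * t) • v = s • (a • w' + b • v) + (a * t) • q := by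
      have h2 : a • v = a • (s • w' + t • q) := by rw [he]
      have h3 : s + a * t = a + s * b := by
        have : a = 1 - b := by linarith
        have : s = 1 - t := by linarith
        subst this
        rw [‹a = 1 - b›]; ring
      rw [h3, add_smul, h2]
      module
    have h4 : v = (s + a * t)⁻¹ • ((s + a * t) • v) := by
      rw [smul_smul, inv_mul_cancel₀ hpos', one_smul]
    rw [h1, smul_add, smul_smul, smul_smul] at h4
    rw [div_eq_inv_mul, div_eq_inv_mul]
    exact h4
  rw [hv]
  exact (convex_convexHull ℝ A) hzA hq (div_nonneg hs hpos.le) (by positivity)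
    (by rw [← add_div]; exact div_self hpos')

variable {V : Type}

theorem tangents {p : V → ℝ × ℝ} (gp : GP p) {S : Finset V} {w : V}
    (hw : p w ∉ convexHull ℝ (p '' (S : Set V))) (h2 : 2 ≤ S.card) :
    ∃ v ∈ S, ∃ v' ∈ S, v ≠ v' ∧ (∀ z ∈ S, z ≠ v → 0 < D (p w) (p v) (p z)) ∧
      (∀ z ∈ S, z ≠ v' → D (p w) (p v') (p z) < 0) := by
  classical
  have hfin : (p '' (S : Set V)).Finite := S.finite_toSet.image p
  obtain ⟨f, u, hfu, hfb⟩ := geometric_hahn_banach_point_closed (convex_convexHull ℝ _)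
    (hfin.isClosed_convexHull ℝ) hw
  set α := f ((1 : ℝ), (0 : ℝ)) with hα
  set β := f ((0 : ℝ), (1 : ℝ)) with hβ
  have hf : ∀ z : ℝ × ℝ, f z = z.1 * α + z.2 * β := by
    intro z
    have : z = z.1 • ((1 : ℝ), (0 : ℝ)) + z.2 • ((0 : ℝ), (1 : ℝ)) := by
      ext <;> simp
    conv_lhs => rw [this]
    rw [map_add, map_smul, map_smul, smul_eq_mul, smul_eq_mul]
  set F : V → ℝ := fun z => ((p z).1 - (p w).1) * α + ((p z).2 - (p w).2) * β with hF
  set G : V → ℝ := fun z => α * ((p z).2 - (p w).2) - β * ((p z).1 - (p w).1) with hG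
  have F0 : ∀ z ∈ S, 0 < F z := by
    intro z hz
    have h1 := hfb (p z) (subset_convexHull ℝ _ ⟨z, hz, rfl⟩)
    have h3 : f (p w) < f (p z) := hfu.trans h1
    rw [hf, hf] at h3
    rw [hF]
    linarith
  have hid : ∀ v z, (α ^ 2 + β ^ 2) * D (p w) (p v) (p z) = F v * G z - G v * F z := by
    intro v z
    simp only [hF, hG, D]
    ring
  have hne : S.Nonempty := Finset.card_pos.1 (by omega)
  have hab : 0 < α ^ 2 + β ^ 2 := by
    obtain ⟨z, hz⟩ := hne
    have h1 := F0 z hz
    by_contra hc
    push Not at hc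
    have ha : α = 0 := by nlinarith [sq_nonneg α, sq_nonneg β]
    have hb : β = 0 := by nlinarith [sq_nonneg α, sq_nonneg β]
    rw [hF] at h1
    simp only [ha, hb] at h1
    linarith
  have hwS : w ∉ S := fun h => hw (subset_convexHull ℝ _ ⟨w, h, rfl⟩)
  obtain ⟨v, hv, hvm⟩ := Finset.exists_min_image S (fun z => G z / F z) hne
  obtain ⟨v', hv', hvm'⟩ := Finset.exists_max_image S (fun z => G z / F z) hne
  have c1 : ∀ z ∈ S, z ≠ v → 0 < D (p w) (p v) (p z) := by
    intro z hz hzv
    have h1 := hvm z hz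
    rw [div_le_div_iff₀ (F0 v hv) (F0 z hz)] at h1
    have h3 := hid v z
    have h4 : D (p w) (p v) (p z) ≠ 0 := gp w v z (fun h => hwS (h ▸ hv)) (fun h => hwS (h ▸ hz))
      hzv.symm
    have h5 : 0 ≤ D (p w) (p v) (p z) := by
      by_contra hc
      push Not at hc
      have := mul_neg_of_pos_of_neg hab hc
      nlinarith
    exact lt_of_le_of_ne h5 h4.symm
  have c2 : ∀ z ∈ S, z ≠ v' → D (p w) (p v') (p z) < 0 := by
    intro z hz hzv
    have h1 := hvm' z hz
    rw [div_le_div_iff₀ (F0 z hz) (F0 v' hv')] at h1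
    have h3 := hid v' z
    have h4 : D (p w) (p v') (p z) ≠ 0 := gp w v' z (fun h => hwS (h ▸ hv'))
      (fun h => hwS (h ▸ hz)) hzv.symm
    have h5 : D (p w) (p v') (p z) ≤ 0 := by
      by_contra hc
      push Not at hc
      have := mul_pos hab hc
      nlinarith
    exact lt_of_le_of_ne h5 h4
  refine ⟨v, hv, v', hv', ?_, c1, c2⟩
  intro h
  obtain ⟨z, hz, hzv⟩ := Finset.exists_mem_ne (by omega : 1 < S.card) v
  have := c1 z hz hzv
  have := c2 z hz (by rw [← h]; exact hzv)
  rw [← h] at this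
  linarith

end Pool.Agent.Q248.GH
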