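import Pool.Agent.Q248.GH.Lower

/-!
Around an empty convex quadrilateral there are at least `3 n - 4 - h` pairwise noncrossing segments,
none of which crosses a diagonal of the quadrilateral.
-/

namespace Pool.Agent.Q248.GH

open Finset

variable {V : Type} [DecidableEq V]

/-- `w` is a vertex of the convex hull of `S` -/
def ExtS (p : V → ℝ × ℝ) (S : Finset V) (w : V) : Prop :=
  p w ∉ convexHull ℝ (p '' ((S.erase w : Finset V) : Set V))

open Classical in
/-- the number of vertices of the convex hull of `S` -/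
noncomputable def hS (p : V → ℝ × ℝ) (S : Finset V) : ℕ := (S.filter (fun w => ExtS p S w)).card

theorem exists_ext {p : V → ℝ × ℝ} (hp : Function.Injective p) {S : Finset V} {Q : Finset V}
    {w : V} (hw : w ∈ S) (hwQ : p w ∉ convexHull ℝ (p '' (Q : Set V))) :
    ∃ v ∈ S, v ∉ Q ∧ ExtS p S v := by
  have hfin : (p '' (S : Set V)).Finite := S.finite_toSet.image p
  have hfinQ : (p '' (Q : Set V)).Finite := Q.finite_toSet.image p
  have hK := closure_convexHull_extremePoints (hfin.isCompact_convexHull ℝ)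
    (convex_convexHull ℝ (p '' (S : Set V)))
  by_cases h : ((convexHull ℝ (p '' (S : Set V))).extremePoints ℝ) ⊆ p '' (Q : Set V)
  · exfalso
    apply hwQ
    have h1 : p w ∈ convexHull ℝ (p '' (S : Set V)) := subset_convexHull ℝ _ ⟨w, hw, rfl⟩
    rw [← hK] at h1
    have h2 := closure_mono (convexHull_mono (𝕜 := ℝ) h) h1
    rwa [(hfinQ.isClosed_convexHull ℝ).closure_eq] at h2
  · rw [Set.not_subset] at h
    obtain ⟨z, hz, hzQ⟩ := h
    obtain ⟨v, hv, rfl⟩ := extremePoints_convexHull_subset hz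
    refine ⟨v, hv, fun h => hzQ ⟨v, h, rfl⟩, ?_⟩
    intro h
    have h1 := ((convex_convexHull ℝ
      (p '' (S : Set V))).mem_extremePoints_iff_mem_sdiff_convexHull_sdiff.1 hz).2
    apply h1
    refine convexHull_mono ?_ h
    rintro _ ⟨u, hu, rfl⟩
    have hu' := Finset.mem_erase.1 (Finset.mem_coe.1 hu)
    refine ⟨subset_convexHull ℝ _ ⟨u, hu'.2, rfl⟩, ?_⟩
    intro h2
    exact hu'.1 (hp (Set.mem_singleton_iff.1 h2))

open Classical in
/-- the properties of the set of segments -/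
structure Good (p : V → ℝ × ℝ) (a b c d : V) (S : Finset V) (T : Finset (Sym2 V)) : Prop where
  diag : ∀ e ∈ T, ¬ e.IsDiag
  sub : ∀ x y, s(x, y) ∈ T → x ∈ S ∧ y ∈ S
  nc : ∀ x y z u, s(x, y) ∈ T → s(z, u) ∈ T → ¬ X (p x) (p y) (p z) (p u)
  nab : ∀ x y, s(x, y) ∈ T → ¬ X (p x) (p y) (p a) (p b)
  ncd : ∀ x y, s(x, y) ∈ T → ¬ X (p x) (p y) (p c) (p d)
  ab : s(a, b) ∉ T
  cd : s(c, d) ∉ T
  card : 3 * S.card ≤ T.card + hS p S + 4

theorem good_base {p : V → ℝ × ℝ} {a b c d : V} (hX : X (p a) (p b) (p c) (p d)) :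
    Good p a b c d {a, b, c, d} {s(a, c), s(a, d), s(b, c), s(b, d)} := by
  obtain ⟨n1, n2, n3, n4, n5, n6⟩ := X_ne hX
  have n1 : a ≠ b := fun h => n1 (by rw [h])
  have n2 : a ≠ c := fun h => n2 (by rw [h])
  have n3 : a ≠ d := fun h => n3 (by rw [h])
  have n4 : b ≠ c := fun h => n4 (by rw [h])
  have n5 : b ≠ d := fun h => n5 (by rw [h])
  have n6 : c ≠ d := fun h => n6 (by rw [h])
  have u1 := X_unique hX
  have u2 := X_unique' hX
  have mem : ∀ x y, s(x, y) ∈ ({s(a, c), s(a, d), s(b, c), s(b, d)} : Finset (Sym2 V)) →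
      ((x = a ∧ y = c) ∨ (x = c ∧ y = a)) ∨ ((x = a ∧ y = d) ∨ (x = d ∧ y = a)) ∨
      ((x = b ∧ y = c) ∨ (x = c ∧ y = b)) ∨ ((x = b ∧ y = d) ∨ (x = d ∧ y = b)) := by
    intro x y h
    simpa only [Finset.mem_insert, Finset.mem_singleton, Sym2.eq_iff] using h
  have v1 : ¬ X (p a) (p c) (p b) (p d) := u1
  have v2 : ¬ X (p a) (p d) (p b) (p c) := u2
  refine ⟨?_, ?_, ?_, ?_, ?_, ?_, ?_, ?_⟩
  · intro e he
    simp only [Finset.mem_insert, Finset.mem_singleton] at he
    rcases he with rfl | rfl | rfl | rfl <;> simp only [Sym2.mk_isDiag_iff]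
    · exact n2
    · exact n3
    · exact n4
    · exact n5
  · intro x y h
    rcases mem x y h with (⟨rfl, rfl⟩ | ⟨rfl, rfl⟩) | (⟨rfl, rfl⟩ | ⟨rfl, rfl⟩) |
      (⟨rfl, rfl⟩ | ⟨rfl, rfl⟩) | (⟨rfl, rfl⟩ | ⟨rfl, rfl⟩) <;> simp
  · intro x y z u h h' hh
    rcases mem x y h with (⟨rfl, rfl⟩ | ⟨rfl, rfl⟩) | (⟨rfl, rfl⟩ | ⟨rfl, rfl⟩) |
      (⟨rfl, rfl⟩ | ⟨rfl, rfl⟩) | (⟨rfl, rfl⟩ | ⟨rfl, rfl⟩) <;>
    rcases mem z u h' with (⟨rfl, rfl⟩ | ⟨rfl, rfl⟩) | (⟨rfl, rfl⟩ | ⟨rfl, rfl⟩) |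
      (⟨rfl, rfl⟩ | ⟨rfl, rfl⟩) | (⟨rfl, rfl⟩ | ⟨rfl, rfl⟩) <;>
    first
      | exact nX1 _ _ _ hh
      | exact nX2 _ _ _ hh
      | exact nX3 _ _ _ hh
      | exact nX4 _ _ _ hh
      | exact v1 hh
      | exact v1 (X_swap hh)
      | exact v1 (X_swap' hh)
      | exact v1 (X_swap (X_swap' hh))
      | exact v1 (X_symm hh)
      | exact v1 (X_symm (X_swap hh))
      | exact v1 (X_symm (X_swap' hh))
      | exact v1 (X_symm (X_swap (X_swap' hh)))
      | exact v2 hh
      | exact v2 (X_swap hh)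
      | exact v2 (X_swap' hh)
      | exact v2 (X_swap (X_swap' hh))
      | exact v2 (X_symm hh)
      | exact v2 (X_symm (X_swap hh))
      | exact v2 (X_symm (X_swap' hh))
      | exact v2 (X_symm (X_swap (X_swap' hh)))
  · intro x y h hh
    rcases mem x y h with (⟨rfl, rfl⟩ | ⟨rfl, rfl⟩) | (⟨rfl, rfl⟩ | ⟨rfl, rfl⟩) |
      (⟨rfl, rfl⟩ | ⟨rfl, rfl⟩) | (⟨rfl, rfl⟩ | ⟨rfl, rfl⟩) <;>
    first
      | exact nX1 _ _ _ hh
      | exact nX2 _ _ _ hh
      | exact nX3 _ _ _ hh
      | exact nX4 _ _ _ hh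
  · intro x y h hh
    rcases mem x y h with (⟨rfl, rfl⟩ | ⟨rfl, rfl⟩) | (⟨rfl, rfl⟩ | ⟨rfl, rfl⟩) |
      (⟨rfl, rfl⟩ | ⟨rfl, rfl⟩) | (⟨rfl, rfl⟩ | ⟨rfl, rfl⟩) <;>
    first
      | exact nX1 _ _ _ hh
      | exact nX2 _ _ _ hh
      | exact nX3 _ _ _ hh
      | exact nX4 _ _ _ hh
  · intro h
    rcases mem a b h with (h | h) | (h | h) | (h | h) | (h | h)
    · exact n4 h.2
    · exact n2 h.1
    · exact n5 h.2
    · exact n3 h.1
    · exact n1 h.1
    · exact n2 h.1
    · exact n1 h.1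
    · exact n3 h.1
  · intro h
    rcases mem c d h with (h | h) | (h | h) | (h | h) | (h | h)
    · exact n2 h.1.symm
    · exact n3 h.2.symm
    · exact n2 h.1.symm
    · exact n6 h.1
    · exact n4 h.1.symm
    · exact n5 h.2.symm
    · exact n4 h.1.symm
    · exact n6 h.1
  · have c1 : ({a, b, c, d} : Finset V).card = 4 := by
      rw [Finset.card_insert_of_notMem, Finset.card_insert_of_notMem, Finset.card_pair n6]
      · simp [n4, n5]
      · simp [n1, n2, n3]
    have c2 : ({s(a, c), s(a, d), s(b, c), s(b, d)} : Finset (Sym2 V)).card = 4 := by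
      rw [Finset.card_insert_of_notMem, Finset.card_insert_of_notMem, Finset.card_pair]
      · intro h
        rcases Sym2.eq_iff.1 h with h | h
        · exact n6 h.2
        · exact n5 h.1
      · simp only [Finset.mem_insert, Finset.mem_singleton, Sym2.eq_iff, not_or]
        exact ⟨⟨fun h => n1 h.1, fun h => n2 h.1⟩, ⟨fun h => n1 h.1, fun h => n3 h.1⟩⟩
      · simp only [Finset.mem_insert, Finset.mem_singleton, Sym2.eq_iff, not_or]
        exact ⟨⟨fun h => n6 h.2, fun h => n3 h.1⟩, ⟨fun h => n1 h.1, fun h => n2 h.1⟩,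
          ⟨fun h => n1 h.1, fun h => n3 h.1⟩⟩
    have key : ∀ {a b c d : V} {A : Finset V}, X (p a) (p b) (p c) (p d) →
        (∀ z ∈ A.erase a, z = b ∨ z = c ∨ z = d) → ExtS p A a := by
      intro a b c d A h hA h1
      apply ext_of_X h
      refine convexHull_mono ?_ h1
      rintro _ ⟨z, hz, rfl⟩
      rcases hA z (Finset.mem_coe.1 hz) with rfl | rfl | rfl <;> simp
    have c3 : hS p {a, b, c, d} = 4 := by
      classical
      unfold hS
      rw [Finset.filter_true_of_mem, c1]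
      intro z hz
      simp only [Finset.mem_insert, Finset.mem_singleton] at hz
      rcases hz with rfl | rfl | rfl | rfl
      · apply key hX
        intro z hz
        simp only [Finset.mem_erase, Finset.mem_insert, Finset.mem_singleton] at hz
        tauto
      · apply key (X_swap hX)
        intro z hz
        simp only [Finset.mem_erase, Finset.mem_insert, Finset.mem_singleton] at hz
        tauto
      · apply key (X_symm hX)
        intro z hz
        simp only [Finset.mem_erase, Finset.mem_insert, Finset.mem_singleton] at hz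
        tauto
      · apply key (X_swap (X_symm hX))
        intro z hz
        simp only [Finset.mem_erase, Finset.mem_insert, Finset.mem_singleton] at hz
        tauto
    rw [c1, c2, c3]

end Pool.Agent.Q248.GH
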