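import Pool.Agent.Q248.GH.LowerBound

/-!
The induction step: adding a hull vertex.
-/

namespace Pool.Agent.Q248.GH

open Finset

variable {V : Type} [DecidableEq V]

theorem good_step {p : V → ℝ × ℝ} (gp : GP p) (hp : Function.Injective p) {a b c d : V}
    {S : Finset V} {w : V} (hw : w ∈ S) (hext : ExtS p S w) (ha : a ∈ S.erase w)
    (hb : b ∈ S.erase w) (hc : c ∈ S.erase w) (hd : d ∈ S.erase w)
    (h2 : 2 ≤ (S.erase w).card) {T : Finset (Sym2 V)} (hT : Good p a b c d (S.erase w) T) :
    ∃ T', Good p a b c d S T' := by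
  classical
  set S' := S.erase w with hS'
  have hwS' : w ∉ S' := Finset.notMem_erase w S
  have hSS : S = insert w S' := (Finset.insert_erase hw).symm
  have hcard : S.card = S'.card + 1 := by
    rw [hSS, Finset.card_insert_of_notMem hwS']
  set N := S'.filter (fun v => ∀ u ∈ S', ∀ u' ∈ S', ¬ X (p w) (p v) (p u) (p u')) with hN
  set lost := S'.filter (fun v => ExtS p S' v ∧ ¬ ExtS p S v) with hlost
  obtain ⟨v1, hv1, v2, hv2, hv12, t1, t2⟩ := tangents gp hext h2
  -- the tangent points are visible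
  have n1 : v1 ∈ N := by
    refine Finset.mem_filter.2 ⟨hv1, ?_⟩
    intro u hu u' hu' hX
    have e1 : 0 ≤ D (p w) (p v1) (p u) := by
      by_cases h : u = v1
      · rw [h, D_right]
      · exact (t1 u hu h).le
    have e2 : 0 ≤ D (p w) (p v1) (p u') := by
      by_cases h : u' = v1
      · rw [h, D_right]
      · exact (t1 u' hu' h).le
    have := mul_nonneg e1 e2
    linarith [hX.1]
  have n2 : v2 ∈ N := by
    refine Finset.mem_filter.2 ⟨hv2, ?_⟩
    intro u hu u' hu' hX
    have e1 : D (p w) (p v2) (p u) ≤ 0 := by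
      by_cases h : u = v2
      · rw [h, D_right]
      · exact (t2 u hu h).le
    have e2 : D (p w) (p v2) (p u') ≤ 0 := by
      by_cases h : u' = v2
      · rw [h, D_right]
      · exact (t2 u' hu' h).le
    have := mul_nonneg_of_nonpos_of_nonpos e1 e2
    linarith [hX.1]
  have hsub : ∀ v ∈ S', p '' ((S.erase v : Finset V) : Set V) =
      insert (p w) (p '' ((S'.erase v : Finset V) : Set V)) := by
    intro v hv
    have hvw : w ≠ v := fun h => hwS' (h ▸ hv)
    rw [← Set.image_insert_eq, ← Finset.coe_insert]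
    congr 2
    rw [hSS, Finset.erase_insert_of_ne hvw]
  have x1 : ExtS p S v1 := by
    unfold ExtS
    rw [hsub v1 hv1]
    refine ext_of_tangent (fun h => hwS' ((hp h : v1 = w) ▸ hv1)) (Or.inl ?_)
    rintro _ ⟨z, hz, rfl⟩
    have hz' := Finset.mem_erase.1 (Finset.mem_coe.1 hz)
    exact t1 z hz'.2 hz'.1
  have x2 : ExtS p S v2 := by
    unfold ExtS
    rw [hsub v2 hv2]
    refine ext_of_tangent (fun h => hwS' ((hp h : v2 = w) ▸ hv2)) (Or.inr ?_)
    rintro _ ⟨z, hz, rfl⟩
    have hz' := Finset.mem_erase.1 (Finset.mem_coe.1 hz)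
    have := t2 z hz'.2 hz'.1
    rw [D_swap']
    linarith
  -- lost hull vertices are visible
  have hlN : lost ⊆ N := by
    intro v hv
    obtain ⟨hv0, hv3, hv4⟩ := Finset.mem_filter.1 hv
    refine Finset.mem_filter.2 ⟨hv0, ?_⟩
    intro u hu u' hu' hX
    obtain ⟨q1, q2, q3, q4, q5, q6⟩ := X_ne hX
    obtain ⟨z, hz, hz'⟩ := X_point hX
    unfold ExtS at hv4
    rw [hsub v hv0, not_not] at hv4
    refine lost_lemma hv3 hv4 (fun h => hwS' ((hp h : v = w) ▸ hv0)) hz ?_
    have m1 : p u ∈ p '' ((S'.erase v : Finset V) : Set V) :=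
      ⟨u, Finset.mem_coe.2 (Finset.mem_erase.2 ⟨fun h => q4 (by rw [h]), hu⟩), rfl⟩
    have m2 : p u' ∈ p '' ((S'.erase v : Finset V) : Set V) :=
      ⟨u', Finset.mem_coe.2 (Finset.mem_erase.2 ⟨fun h => q5 (by rw [h]), hu'⟩), rfl⟩
    exact (convex_convexHull ℝ _).segment_subset (subset_convexHull ℝ _ m1)
      (subset_convexHull ℝ _ m2) (openSegment_subset_segment ℝ _ _ hz')
  have cN : lost.card + 2 ≤ N.card := by
    have h1 : insert v1 (insert v2 lost) ⊆ N := by
      intro v hv
      rcases Finset.mem_insert.1 hv with rfl | hv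
      · exact n1
      rcases Finset.mem_insert.1 hv with rfl | hv
      · exact n2
      exact hlN hv
    have h3 : v2 ∉ lost := fun h => (Finset.mem_filter.1 h).2.2 x2
    have h4 : v1 ∉ insert v2 lost := by
      intro h
      rcases Finset.mem_insert.1 h with h | h
      · exact hv12 h
      · exact (Finset.mem_filter.1 h).2.2 x1
    have := Finset.card_le_card h1
    rw [Finset.card_insert_of_notMem h4, Finset.card_insert_of_notMem h3] at this
    omega
  set M := S'.filter (fun v => ExtS p S v) with hM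
  have cH' : hS p S' ≤ lost.card + M.card := by
    have h1 : (S'.filter (fun v => ExtS p S' v)) ⊆ lost ∪ M := by
      intro v hv
      obtain ⟨a1, a2⟩ := Finset.mem_filter.1 hv
      by_cases h : ExtS p S v
      · exact Finset.mem_union_right _ (Finset.mem_filter.2 ⟨a1, h⟩)
      · exact Finset.mem_union_left _ (Finset.mem_filter.2 ⟨a1, a2, h⟩)
    have h3 := (Finset.card_le_card h1).trans (Finset.card_union_le _ _)
    have h4 : hS p S' = (S'.filter (fun v => ExtS p S' v)).card := by
      unfold hS; congr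
    omega
  have cH : M.card + 1 ≤ hS p S := by
    have h1 : insert w M ⊆ S.filter (fun v => ExtS p S v) := by
      intro v hv
      rcases Finset.mem_insert.1 hv with rfl | hv
      · exact Finset.mem_filter.2 ⟨hw, hext⟩
      · obtain ⟨a1, a2⟩ := Finset.mem_filter.1 hv
        exact Finset.mem_filter.2 ⟨Finset.mem_of_mem_erase a1, a2⟩
    have h3 : w ∉ M := fun h => hwS' (Finset.mem_filter.1 h).1
    have h4 := Finset.card_le_card h1
    rw [Finset.card_insert_of_notMem h3] at h4
    have h5 : hS p S = (S.filter (fun v => ExtS p S v)).card := by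
      unfold hS; congr
    omega
  set I := N.image (fun v => s(w, v)) with hI
  have cI : I.card = N.card := by
    refine Finset.card_image_of_injOn ?_
    intro v _ v' _ h
    exact Sym2.congr_right.1 h
  have memI : ∀ x y, s(x, y) ∈ I → (x = w ∧ y ∈ N) ∨ (y = w ∧ x ∈ N) := by
    intro x y h
    obtain ⟨v, hv, he⟩ := Finset.mem_image.1 h
    rcases Sym2.eq_iff.1 he with ⟨h1, h3⟩ | ⟨h1, h3⟩
    · exact Or.inl ⟨h1.symm, h3 ▸ hv⟩
    · exact Or.inr ⟨h1.symm, h3 ▸ hv⟩
  have hdis : Disjoint T I := by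
    rw [Finset.disjoint_left]
    intro e he hI'
    obtain ⟨v, hv, rfl⟩ := Finset.mem_image.1 hI'
    exact hwS' (hT.sub _ _ he).1
  have NS : ∀ v ∈ N, v ∈ S' := fun v hv => (Finset.mem_filter.1 hv).1
  have NX : ∀ v ∈ N, ∀ u ∈ S', ∀ u' ∈ S', ¬ X (p w) (p v) (p u) (p u') := fun v hv =>
    (Finset.mem_filter.1 hv).2
  have IX : ∀ x y, s(x, y) ∈ I → ∀ u ∈ S', ∀ u' ∈ S', ¬ X (p x) (p y) (p u) (p u') := by
    intro x y h u hu u' hu' hX
    rcases memI x y h with ⟨rfl, hy⟩ | ⟨rfl, hx⟩
    · exact NX y hy u hu u' hu' hX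
    · exact NX x hx u hu u' hu' (X_swap hX)
  refine ⟨T ∪ I, ?_, ?_, ?_, ?_, ?_, ?_, ?_, ?_⟩
  · intro e he
    rcases Finset.mem_union.1 he with he | he
    · exact hT.diag e he
    · obtain ⟨v, hv, rfl⟩ := Finset.mem_image.1 he
      rw [Sym2.mk_isDiag_iff]
      intro h
      exact hwS' (h ▸ NS v hv)
  · intro x y h
    rcases Finset.mem_union.1 h with h | h
    · obtain ⟨h1, h3⟩ := hT.sub x y h
      exact ⟨Finset.mem_of_mem_erase h1, Finset.mem_of_mem_erase h3⟩
    · rcases memI x y h with ⟨rfl, hy⟩ | ⟨rfl, hx⟩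
      · exact ⟨hw, Finset.mem_of_mem_erase (NS y hy)⟩
      · exact ⟨Finset.mem_of_mem_erase (NS x hx), hw⟩
  · intro x y z u h h' hX
    rcases Finset.mem_union.1 h with h | h <;> rcases Finset.mem_union.1 h' with h' | h'
    · exact hT.nc x y z u h h' hX
    · obtain ⟨h1, h3⟩ := hT.sub x y h
      exact IX z u h' x h1 y h3 (X_symm hX)
    · obtain ⟨h1, h3⟩ := hT.sub z u h'
      exact IX x y h z h1 u h3 hX
    · rcases memI x y h with ⟨rfl, hy⟩ | ⟨rfl, hx⟩ <;> rcases memI z u h' with ⟨rfl, hy'⟩ | ⟨rfl, hx'⟩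
      · exact nX1 _ _ _ hX
      · exact nX2 _ _ _ hX
      · exact nX3 _ _ _ hX
      · exact nX4 _ _ _ hX
  · intro x y h
    rcases Finset.mem_union.1 h with h | h
    · exact hT.nab x y h
    · exact IX x y h a ha b hb
  · intro x y h
    rcases Finset.mem_union.1 h with h | h
    · exact hT.ncd x y h
    · exact IX x y h c hc d hd
  · intro h
    rcases Finset.mem_union.1 h with h | h
    · exact hT.ab h
    · rcases memI a b h with ⟨h1, -⟩ | ⟨h1, -⟩
      · exact hwS' (h1 ▸ ha)
      · exact hwS' (h1 ▸ hb)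
  · intro h
    rcases Finset.mem_union.1 h with h | h
    · exact hT.cd h
    · rcases memI c d h with ⟨h1, -⟩ | ⟨h1, -⟩
      · exact hwS' (h1 ▸ hc)
      · exact hwS' (h1 ▸ hd)
  · have h3 := hT.card
    rw [Finset.card_union_of_disjoint hdis, cI]
    omega

/-- many pairwise noncrossing segments around an empty convex quadrilateral -/
theorem good_exists {p : V → ℝ × ℝ} (gp : GP p) (hp : Function.Injective p) {a b c d : V}
    (hX : X (p a) (p b) (p c) (p d)) (n : ℕ) : ∀ S : Finset V, S.card = n → {a, b, c, d} ⊆ S →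
    (∀ w ∈ S, w ∉ ({a, b, c, d} : Finset V) →
      p w ∉ convexHull ℝ (p '' (({a, b, c, d} : Finset V) : Set V))) →
    ∃ T, Good p a b c d S T := by
  induction n with
  | zero =>
    intro S hS hQ _
    exfalso
    have : a ∈ S := hQ (by simp)
    rw [Finset.card_eq_zero.1 hS] at this
    exact absurd this (Finset.notMem_empty a)
  | succ n ih =>
    intro S hS hQ hempty
    by_cases h : S ⊆ {a, b, c, d}
    · rw [Finset.Subset.antisymm h hQ]
      exact ⟨_, good_base hX⟩
    · rw [Finset.not_subset] at h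
      obtain ⟨w0, hw0, hw0Q⟩ := h
      obtain ⟨w, hw, hwQ, hext⟩ := exists_ext hp hw0 (hempty w0 hw0 hw0Q)
      have hQ' : {a, b, c, d} ⊆ S.erase w := by
        intro z hz
        exact Finset.mem_erase.2 ⟨fun h => hwQ (h ▸ hz), hQ hz⟩
      obtain ⟨T, hT⟩ := ih (S.erase w) (by rw [Finset.card_erase_of_mem hw, hS]; rfl) hQ'
        (fun z hz => hempty z (Finset.mem_of_mem_erase hz))
      have hab : a ≠ b := fun h => (X_ne hX).1 (by rw [h])
      refine good_step gp hp hw hext (hQ' (by simp)) (hQ' (by simp)) (hQ' (by simp))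
        (hQ' (by simp)) ?_ hT
      have h1 : ({a, b} : Finset V) ⊆ S.erase w := by
        intro z hz
        apply hQ'
        simp only [Finset.mem_insert, Finset.mem_singleton] at hz ⊢
        tauto
      have := Finset.card_le_card h1
      rwa [Finset.card_pair hab] at this

end Pool.Agent.Q248.GH
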