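import Pool.Agent.Q248.GH.Rigid

/-!
The rigidity theorem.
-/

namespace Pool.Agent.Q248.GH

open Finset

variable {V : Type} [Fintype V]

/-- a crossing of `q` that is not a crossing of `p`, of minimal area -/
structure Mini (p q : V → ℝ × ℝ) (a b c d : V) : Prop where
  hX : X (q a) (q b) (q c) (q d)
  hn : ¬ X (p a) (p b) (p c) (p d)
  min : ∀ a' b' c' d' : V, X (q a') (q b') (q c') (q d') → ¬ X (p a') (p b') (p c') (p d') →
    Ar (q a) (q b) (q c) (q d) ≤ Ar (q a') (q b') (q c') (q d')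

variable {p q : V → ℝ × ℝ}

omit [Fintype V] in
theorem Mini.swap {a b c d : V} (h : Mini p q a b c d) : Mini p q b a c d :=
  ⟨X_swap h.hX, fun h' => h.hn (X_swap h'), fun a' b' c' d' h1 h2 => by
    rw [Ar_swap]; exact h.min a' b' c' d' h1 h2⟩

omit [Fintype V] in
theorem Mini.swap' {a b c d : V} (h : Mini p q a b c d) : Mini p q a b d c :=
  ⟨X_swap' h.hX, fun h' => h.hn (X_swap' h'), fun a' b' c' d' h1 h2 => by
    rw [Ar_swap']; exact h.min a' b' c' d' h1 h2⟩

omit [Fintype V] in
theorem C4_ne {p : V → ℝ × ℝ} (gp : GP p) {a b c d : V} (h1 : a ≠ b) (h2 : a ≠ c) (h3 : a ≠ d)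
    (h4 : b ≠ c) (h5 : b ≠ d) (h6 : c ≠ d) : C4 (p a) (p b) (p c) (p d) ≠ 0 := by
  unfold C4
  exact mul_ne_zero (mul_ne_zero (gp a b c h1 h2 h4) (gp a b d h1 h3 h5))
    (mul_ne_zero (gp a c d h2 h3 h6) (gp b c d h4 h5 h6))

omit [Fintype V] in
theorem C4_mono (gq : GP q)
    (hle : ∀ a b c d, X (p a) (p b) (p c) (p d) → X (q a) (q b) (q c) (q d)) {a b c d : V}
    (h : 0 < C4 (p a) (p b) (p c) (p d)) : 0 < C4 (q a) (q b) (q c) (q d) := by
  rcases X_of_C4 h with h | h | h
  · exact C4_pos_of_X (hle _ _ _ _ h)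
  · have := C4_pos_of_X (hle _ _ _ _ h)
    have e : C4 (q a) (q c) (q b) (q d) = C4 (q a) (q b) (q c) (q d) := by unfold C4 D; ring
    rwa [e] at this
  · have := C4_pos_of_X (hle _ _ _ _ h)
    have e : C4 (q a) (q d) (q b) (q c) = C4 (q a) (q b) (q c) (q d) := by unfold C4 D; ring
    rwa [e] at this

omit [Fintype V] in
theorem no_inside (gp : GP p) (gq : GP q)
    (hle : ∀ a b c d, X (p a) (p b) (p c) (p d) → X (q a) (q b) (q c) (q d)) {a b c d x : V}
    (hM : Mini p q a b c d) (hxa : x ≠ a) (hxb : x ≠ b) (hxc : x ≠ c) (hxd : x ≠ d)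
    (hx : q x ∈ convexHull ℝ ({q a, q b, q c, q d} : Set (ℝ × ℝ)))
    (s1 : 0 < D (q c) (q d) (q x) * D (q c) (q d) (q a))
    (s2 : 0 < D (q a) (q b) (q x) * D (q a) (q b) (q c)) : False := by
  obtain ⟨hX, hn, hmin⟩ := hM
  obtain ⟨n1, n2, n3, n4, n5, n6⟩ := X_ne hX
  have n1 : a ≠ b := fun h => n1 (by rw [h])
  have n2 : a ≠ c := fun h => n2 (by rw [h])
  have n3 : a ≠ d := fun h => n3 (by rw [h])
  have n4 : b ≠ c := fun h => n4 (by rw [h])
  have n5 : b ≠ d := fun h => n5 (by rw [h])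
  have n6 : c ≠ d := fun h => n6 (by rw [h])
  -- the orientation
  obtain ⟨ε, hε⟩ : ∃ ε : ℝ, 0 < ε * D (q a) (q c) (q b) := by
    refine ⟨D (q a) (q c) (q b), mul_self_pos.2 (gq a c b n2 n1 n4.symm)⟩
  have hε0 : ε ≠ 0 := by rintro rfl; simp at hε
  have hε2 : 0 < ε ^ 2 := by positivity
  obtain ⟨w1, w2, w3, w4⟩ := sides hX hε hx
  have pos : ∀ i j : V, i ≠ j → i ≠ x → j ≠ x → 0 ≤ ε * D (q i) (q j) (q x) →
      0 < ε * D (q i) (q j) (q x) := by
    intro i j h1 h2 h3 h4
    exact lt_of_le_of_ne h4 (mul_ne_zero hε0 (gq i j x h1 h2 h3)).symm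
  have v1 := pos a c n2 hxa.symm hxc.symm w1
  have v2 := pos c b n4.symm hxc.symm hxb.symm w2
  have v3 := pos b d n5 hxb.symm hxd.symm w3
  have v4 := pos d a n3.symm hxd.symm hxa.symm w4
  -- the two diagonals
  have v5 : 0 < ε * D (q b) (q a) (q x) := by
    have e1 : D (q a) (q b) (q c) = - D (q a) (q c) (q b) := by unfold D; ring
    have e2 : D (q a) (q b) (q x) = - D (q b) (q a) (q x) := by unfold D; ring
    have h1 : (ε * D (q b) (q a) (q x)) * (ε * D (q a) (q c) (q b)) =
      ε ^ 2 * (D (q a) (q b) (q x) * D (q a) (q b) (q c)) := by rw [e1, e2]; ring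
    have h2 : 0 < (ε * D (q b) (q a) (q x)) * (ε * D (q a) (q c) (q b)) := by
      rw [h1]; exact mul_pos hε2 s2
    exact (mul_pos_iff_of_pos_right hε).1 h2
  have hacd : 0 < ε * D (q c) (q d) (q a) := by
    -- `D c d a` and `D c d b` have opposite signs and `D c d b` is `-` a positive number
    have h1 : 0 < (ε * D (q c) (q d) (q x)) * (ε * D (q c) (q d) (q a)) := by
      have : (ε * D (q c) (q d) (q x)) * (ε * D (q c) (q d) (q a)) =
        ε ^ 2 * (D (q c) (q d) (q x) * D (q c) (q d) (q a)) := by ring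
      rw [this]; exact mul_pos hε2 s1
    have e0 : D (q c) (q d) (q a) = D (q a) (q c) (q x) + D (q c) (q d) (q x) +
      D (q d) (q a) (q x) := by unfold D; ring
    by_contra hc
    push Not at hc
    have h2 : ε * D (q c) (q d) (q x) < 0 := by
      by_contra h
      push Not at h
      have := mul_nonpos_of_nonneg_of_nonpos h hc
      linarith
    -- then `b` is on the same side ...
    have h3 : 0 < ε * D (q c) (q d) (q b) := by
      have h4 : (ε * D (q c) (q d) (q a)) * (ε * D (q c) (q d) (q b)) < 0 := by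
        have : (ε * D (q c) (q d) (q a)) * (ε * D (q c) (q d) (q b)) =
          ε ^ 2 * (D (q c) (q d) (q a) * D (q c) (q d) (q b)) := by ring
        rw [this]; exact mul_neg_of_pos_of_neg hε2 hX.2
      by_contra h
      push Not at h
      have := mul_nonneg_of_nonpos_of_nonpos hc h
      linarith
    have e4 : D (q a) (q b) (q d) + D (q a) (q c) (q b) + D (q c) (q d) (q b) =
      D (q c) (q d) (q a) := by unfold D; ring
    have h5 : 0 < ε * D (q a) (q b) (q d) := by
      have h4 : 0 < (ε * D (q a) (q c) (q b)) * (ε * D (q a) (q b) (q d)) := by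
        have e5 : D (q a) (q b) (q c) = - D (q a) (q c) (q b) := by unfold D; ring
        have := hX.1
        rw [e5] at this
        have h6 : (ε * D (q a) (q c) (q b)) * (ε * D (q a) (q b) (q d)) =
          ε ^ 2 * (D (q a) (q c) (q b) * D (q a) (q b) (q d)) := by ring
        rw [h6]
        refine mul_pos hε2 ?_
        linarith
      exact (mul_pos_iff_of_pos_left hε).1 h4
    have h6 : ε * D (q a) (q b) (q d) + ε * D (q a) (q c) (q b) + ε * D (q c) (q d) (q b) =
      ε * D (q c) (q d) (q a) := by rw [← e4]; ring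
    linarith
  have v6 : 0 < ε * D (q c) (q d) (q x) := by
    have h1 : 0 < (ε * D (q c) (q d) (q x)) * (ε * D (q c) (q d) (q a)) := by
      have : (ε * D (q c) (q d) (q x)) * (ε * D (q c) (q d) (q a)) =
        ε ^ 2 * (D (q c) (q d) (q x) * D (q c) (q d) (q a)) := by ring
      rw [this]; exact mul_pos hε2 s1
    exact (mul_pos_iff_of_pos_right hacd).1 h1
  have v7 : ε * D (q c) (q d) (q b) < 0 := by
    have h4 : (ε * D (q c) (q d) (q a)) * (ε * D (q c) (q d) (q b)) < 0 := by
      have : (ε * D (q c) (q d) (q a)) * (ε * D (q c) (q d) (q b)) =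
        ε ^ 2 * (D (q c) (q d) (q a) * D (q c) (q d) (q b)) := by ring
      rw [this]; exact mul_neg_of_pos_of_neg hε2 hX.2
    by_contra h
    push Not at h
    have := mul_nonneg hacd.le h
    linarith
  have v8 : 0 < ε * D (q a) (q b) (q d) := by
    have h4 : 0 < (ε * D (q a) (q c) (q b)) * (ε * D (q a) (q b) (q d)) := by
      have e5 : D (q a) (q b) (q c) = - D (q a) (q c) (q b) := by unfold D; ring
      have := hX.1
      rw [e5] at this
      have h6 : (ε * D (q a) (q c) (q b)) * (ε * D (q a) (q b) (q d)) =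
        ε ^ 2 * (D (q a) (q c) (q b) * D (q a) (q b) (q d)) := by ring
      rw [h6]
      refine mul_pos hε2 ?_
      linarith
    exact (mul_pos_iff_of_pos_left hε).1 h4
  have neg_of : ∀ u v : ℝ, ε * u < 0 → 0 < ε * v → u * v < 0 := by
    intro u v hu hv
    have h1 : (ε * u) * (ε * v) < 0 := mul_neg_of_neg_of_pos hu hv
    have h2 : (ε * u) * (ε * v) = ε ^ 2 * (u * v) := by ring
    rw [h2] at h1
    by_contra h
    push Not at h
    have := mul_nonneg hε2.le h
    linarith
  -- two smaller crossings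
  have X1 : X (q x) (q b) (q c) (q d) := by
    refine ⟨?_, ?_⟩
    · have e1 : D (q x) (q b) (q c) = - D (q c) (q b) (q x) := by unfold D; ring
      have e2 : D (q x) (q b) (q d) = D (q b) (q d) (q x) := by unfold D; ring
      rw [e1, e2]
      exact neg_of _ _ (by linarith) v3
    · rw [mul_comm]
      exact neg_of _ _ v7 v6
  have X2 : X (q x) (q d) (q a) (q b) := by
    refine ⟨?_, ?_⟩
    · have e1 : D (q x) (q d) (q a) = D (q d) (q a) (q x) := by unfold D; ring
      have e2 : D (q x) (q d) (q b) = - D (q b) (q d) (q x) := by unfold D; ring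
      rw [e1, e2, mul_comm]
      exact neg_of _ _ (by linarith) v4
    · have e1 : D (q a) (q b) (q x) = - D (q b) (q a) (q x) := by unfold D; ring
      rw [e1]
      exact neg_of _ _ (by linarith) v8
  have A1 : Ar (q x) (q b) (q c) (q d) < Ar (q a) (q b) (q c) (q d) := Ar_lt v1 v6 v4 v7
  have A2 : Ar (q x) (q d) (q a) (q b) < Ar (q a) (q b) (q c) (q d) := by
    rw [← Ar_symm (q a)]
    -- `c` replaced by `x`
    refine Ar_lt (ε := -ε) ?_ ?_ ?_ ?_
    · have e1 : D (q c) (q a) (q x) = - D (q a) (q c) (q x) := by unfold D; ring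
      rw [e1]; linarith
    · have e1 : D (q a) (q b) (q x) = - D (q b) (q a) (q x) := by unfold D; ring
      rw [e1]; linarith
    · have e1 : D (q b) (q c) (q x) = - D (q c) (q b) (q x) := by unfold D; ring
      rw [e1]; linarith
    · linarith
  have P1 : X (p x) (p b) (p c) (p d) := by
    by_contra h
    exact absurd (hmin x b c d X1 h) (not_le.2 A1)
  have P2 : X (p x) (p d) (p a) (p b) := by
    by_contra h
    exact absurd (hmin x d a b X2 h) (not_le.2 A2)
  -- signs of the five quadruples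
  have c1 : C4 (p a) (p b) (p c) (p x) < 0 := by
    have h1 : ¬ 0 < C4 (p a) (p b) (p c) (p x) := by
      intro h
      have h2 := C4_mono gq hle h
      have h3 : C4 (q a) (q c) (q b) (q x) ≤ 0 := inside v1 v2 v5
      have e : C4 (q a) (q c) (q b) (q x) = C4 (q a) (q b) (q c) (q x) := by unfold C4 D; ring
      rw [e] at h3
      linarith
    exact lt_of_le_of_ne (not_lt.1 h1) (C4_ne gp n1 n2 hxa.symm n4 hxb.symm hxc.symm)
  have c2 : C4 (p a) (p c) (p d) (p x) < 0 := by
    have h1 : ¬ 0 < C4 (p a) (p c) (p d) (p x) := by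
      intro h
      have h2 := C4_mono gq hle h
      have h3 : C4 (q a) (q c) (q d) (q x) ≤ 0 := inside v1 v6 v4
      linarith
    exact lt_of_le_of_ne (not_lt.1 h1) (C4_ne gp n2 n3 hxa.symm n6 hxc.symm hxd.symm)
  have c3 : 0 < C4 (p b) (p c) (p d) (p x) := by
    have := C4_pos_of_X P1
    have e : C4 (p x) (p b) (p c) (p d) = C4 (p b) (p c) (p d) (p x) := by unfold C4 D; ring
    rwa [e] at this
  have c4 : 0 < C4 (p a) (p b) (p d) (p x) := by
    have := C4_pos_of_X P2
    have e : C4 (p x) (p d) (p a) (p b) = C4 (p a) (p b) (p d) (p x) := by unfold C4 D; ring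
    rwa [e] at this
  have c5 : 0 < C4 (p a) (p b) (p c) (p d) := by
    have h1 := C4_five (p a) (p b) (p c) (p d) (p x)
    have h2 : 0 ≤ C4 (p a) (p b) (p c) (p d) * C4 (p a) (p b) (p c) (p x) *
        C4 (p a) (p b) (p d) (p x) * C4 (p a) (p c) (p d) (p x) * C4 (p b) (p c) (p d) (p x) := by
      rw [h1]; positivity
    have h3 : 0 < C4 (p a) (p b) (p c) (p x) * C4 (p a) (p b) (p d) (p x) *
        C4 (p a) (p c) (p d) (p x) * C4 (p b) (p c) (p d) (p x) := by
      have : 0 < (C4 (p a) (p b) (p c) (p x) * C4 (p a) (p c) (p d) (p x)) *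
        (C4 (p a) (p b) (p d) (p x) * C4 (p b) (p c) (p d) (p x)) :=
        mul_pos (mul_pos_of_neg_of_neg c1 c2) (mul_pos c4 c3)
      calc (0 : ℝ) < _ := this
        _ = _ := by ring
    have h4 : 0 ≤ C4 (p a) (p b) (p c) (p d) := by
      by_contra hc
      push Not at hc
      have := mul_neg_of_neg_of_pos hc h3
      nlinarith
    exact lt_of_le_of_ne h4 (C4_ne gp n1 n2 n3 n4 n5 n6).symm
  rcases X_of_C4 c5 with h | h | h
  · exact hn h
  · exact X_unique hX (hle _ _ _ _ h)
  · exact X_unique' hX (hle _ _ _ _ h)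

end Pool.Agent.Q248.GH
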