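import Pool.Agent.Q248.GH.LowerStep

/-!
If all crossings of `p` are crossings of `q` and the hull of `p` has at least as many vertices as
that of `q`, then the crossings are the same.
-/

namespace Pool.Agent.Q248.GH

open Finset

/-- the product of the four orientations -/
def C4 (a b c d : ℝ × ℝ) : ℝ := (D a b c * D a b d) * (D a c d * D b c d)

theorem C4_pos_of_X {a b c d : ℝ × ℝ} (h : X a b c d) : 0 < C4 a b c d := by
  unfold C4
  have e1 : D c d a = D a c d := by unfold D; ring
  have e2 : D c d b = D b c d := by unfold D; ring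
  have h2 := h.2
  rw [e1, e2] at h2
  exact mul_pos_of_neg_of_neg h.1 h2

theorem X_of_C4 {a b c d : ℝ × ℝ} (h : 0 < C4 a b c d) : X a b c d ∨ X a c b d ∨ X a d b c := by
  unfold C4 at h
  have e1 : D c d a = D a c d := by unfold D; ring
  have e2 : D c d b = D b c d := by unfold D; ring
  rcases mul_pos_iff.1 h with ⟨h1, h2⟩ | ⟨h1, h2⟩
  · by_cases h3 : 0 < D a b c * D a c d
    · -- all the same sign
      right; left
      have e3 : D a c b = - D a b c := by unfold D; ring
      have e4 : D b d a = D a b d := by unfold D; ring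
      have e5 : D b d c = - D b c d := by unfold D; ring
      refine ⟨?_, ?_⟩
      · rw [e3]; linarith
      · rw [e4, e5]
        have : 0 < (D a b c * D a b d) * (D a c d * D b c d) := h
        have h4 : 0 < (D a b c * D a c d) * (D a b d * D b c d) := by
          calc (0 : ℝ) < (D a b c * D a b d) * (D a c d * D b c d) := h
            _ = _ := by ring
        have h5 : 0 < D a b d * D b c d := (mul_pos_iff_of_pos_left h3).1 h4
        linarith
    · have h3' : D a b c * D a c d < 0 := by
        refine lt_of_le_of_ne (not_lt.1 h3) ?_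
        intro h0
        rcases mul_eq_zero.1 h0 with h0 | h0
        · rw [h0] at h1; simp at h1
        · rw [h0] at h2; simp at h2
      right; right
      have e3 : D a d b = - D a b d := by unfold D; ring
      have e4 : D a d c = - D a c d := by unfold D; ring
      have e5 : D b c a = D a b c := by unfold D; ring
      refine ⟨?_, ?_⟩
      · rw [e3, e4]
        -- abd * acd < 0
        have h4 : 0 < (D a b c * D a b d) * (D a c d * D a c d) :=
          mul_pos h1 (by
            refine mul_self_pos.2 ?_
            intro h0; rw [h0] at h2; simp at h2)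
        have h5 : (D a b c * D a b d) * (D a c d * D a c d) =
          (D a b c * D a c d) * (D a b d * D a c d) := by ring
        rw [h5] at h4
        have h6 : D a b d * D a c d < 0 := by
          by_contra hc
          push Not at hc
          have := mul_nonpos_of_nonpos_of_nonneg h3'.le hc
          linarith
        linarith
      · rw [e5]
        have h4 : 0 < (D a b c * D a b c) * (D a c d * D b c d) :=
          mul_pos (by
            refine mul_self_pos.2 ?_
            intro h0; rw [h0] at h1; simp at h1) h2
        have h5 : (D a b c * D a b c) * (D a c d * D b c d) =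
          (D a b c * D a c d) * (D a b c * D b c d) := by ring
        rw [h5] at h4
        by_contra hc
        push Not at hc
        have := mul_nonpos_of_nonpos_of_nonneg h3'.le hc
        linarith
  · left
    exact ⟨h1, by rw [e1, e2]; exact h2⟩

/-- five points: the parity of the number of convex quadrilaterals -/
theorem C4_five (a b c d x : ℝ × ℝ) : C4 a b c d * C4 a b c x * C4 a b d x * C4 a c d x *
    C4 b c d x = (D a b c * D a b d * D a b x * D a c d * D a c x * D a d x * D b c d * D b c x *
      D b d x * D c d x) ^ 2 := by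
  unfold C4
  ring

/-- a point in a triangle: no crossings -/
theorem inside {P Q R x : ℝ × ℝ} {ε : ℝ} (h1 : 0 < ε * D P Q x) (h2 : 0 < ε * D Q R x)
    (h3 : 0 < ε * D R P x) : C4 P Q R x ≤ 0 := by
  unfold C4
  have e0 : D P Q R = D P Q x + D Q R x + D R P x := by unfold D; ring
  have e1 : D P R x = - D R P x := by unfold D; ring
  have hs : 0 < ε * D P Q R := by rw [e0]; linarith
  have hε : ε ≠ 0 := by rintro rfl; simp at h1
  have hε2 : 0 < ε ^ 2 := by positivity
  rw [e1]
  have a1 : 0 < (ε * D P Q R) * (ε * D P Q x) := mul_pos hs h1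
  have a2 : 0 < (ε * D R P x) * (ε * D Q R x) := mul_pos h3 h2
  have b1 : 0 < D P Q R * D P Q x := by
    have : (ε * D P Q R) * (ε * D P Q x) = ε ^ 2 * (D P Q R * D P Q x) := by ring
    rw [this] at a1
    exact (mul_pos_iff_of_pos_left hε2).1 a1
  have b2 : 0 < D R P x * D Q R x := by
    have : (ε * D R P x) * (ε * D Q R x) = ε ^ 2 * (D R P x * D Q R x) := by ring
    rw [this] at a2
    exact (mul_pos_iff_of_pos_left hε2).1 a2
  have := mul_pos b1 b2
  nlinarith

/-- sides of a convex quadrilateral -/
theorem sides {a b c d x : ℝ × ℝ} {ε : ℝ} (hX : X a b c d) (hε : 0 < ε * D a c b)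
    (hx : x ∈ convexHull ℝ ({a, b, c, d} : Set (ℝ × ℝ))) :
    0 ≤ ε * D a c x ∧ 0 ≤ ε * D c b x ∧ 0 ≤ ε * D b d x ∧ 0 ≤ ε * D d a x := by
  obtain ⟨h1, h2⟩ := hX
  have e := D_four a b c d
  have e1 : D c d a = D a c d := by unfold D; ring
  have e2 : D c d b = D b c d := by unfold D; ring
  have e3 : D a c b = - D a b c := by unfold D; ring
  rw [e1, e2] at h2
  rw [e3] at hε
  have hε0 : ε ≠ 0 := by rintro rfl; simp at hε
  have hε2 : 0 < ε ^ 2 := by positivity
  -- signs
  have s1 : ε * D a b c < 0 := by linarith
  have s2 : 0 < ε * D a b d := by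
    have : (ε * D a b c) * (ε * D a b d) < 0 := by
      have : (ε * D a b c) * (ε * D a b d) = ε ^ 2 * (D a b c * D a b d) := by ring
      rw [this]
      exact mul_neg_of_pos_of_neg hε2 h1
    by_contra hc
    push Not at hc
    have := mul_nonneg_of_nonpos_of_nonpos s1.le hc
    linarith
  have s34 : (ε * D a c d) * (ε * D b c d) < 0 := by
    have : (ε * D a c d) * (ε * D b c d) = ε ^ 2 * (D a c d * D b c d) := by ring
    rw [this]
    exact mul_neg_of_pos_of_neg hε2 h2
  have e' : ε * D a b c + ε * D a c d = ε * D a b d + ε * D b c d := by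
    rw [← mul_add, ← mul_add, e]
  have s3 : 0 < ε * D a c d := by
    by_contra hc
    push Not at hc
    have : ε * D b c d < 0 := by linarith
    have := mul_nonneg_of_nonpos_of_nonpos hc this.le
    linarith
  have s4 : ε * D b c d < 0 := by
    by_contra hc
    push Not at hc
    have := mul_nonneg s3.le hc
    linarith
  have gen : ∀ u v : ℝ × ℝ, 0 ≤ ε * D u v a → 0 ≤ ε * D u v b → 0 ≤ ε * D u v c →
      0 ≤ ε * D u v d → 0 ≤ ε * D u v x := by
    intro u v ha hb hc hd
    have hconv : Convex ℝ {z : ℝ × ℝ | 0 ≤ ε * D u v z} := by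
      intro y hy z hz s t hs ht hst
      have hy' : 0 ≤ ε * D u v y := hy
      have hz' : 0 ≤ ε * D u v z := hz
      change 0 ≤ ε * D u v (s • y + t • z)
      rw [D_comb _ _ _ _ _ _ hst]
      have : ε * (s * D u v y + t * D u v z) = s * (ε * D u v y) + t * (ε * D u v z) := by ring
      rw [this]
      positivity
    refine convexHull_min ?_ hconv hx
    rintro z (rfl | rfl | rfl | rfl)
    · exact ha
    · exact hb
    · exact hc
    · exact hd
  refine ⟨gen a c ?_ ?_ ?_ ?_, gen c b ?_ ?_ ?_ ?_, gen b d ?_ ?_ ?_ ?_, gen d a ?_ ?_ ?_ ?_⟩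
  · rw [D_mid, mul_zero]
  · rw [e3]; linarith
  · rw [D_right, mul_zero]
  · exact s3.le
  · have : D c b a = - D a b c := by unfold D; ring
    rw [this]; linarith
  · rw [D_right, mul_zero]
  · rw [D_mid, mul_zero]
  · have : D c b d = - D b c d := by unfold D; ring
    rw [this]; linarith
  · have : D b d a = D a b d := by unfold D; ring
    rw [this]; linarith
  · rw [D_mid, mul_zero]
  · have : D b d c = - D b c d := by unfold D; ring
    rw [this]; linarith
  · rw [D_right, mul_zero]
  · rw [D_right, mul_zero]
  · have : D d a b = D a b d := by unfold D; ring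
    rw [this]; linarith
  · have : D d a c = D a c d := by unfold D; ring
    rw [this]; linarith
  · rw [D_mid, mul_zero]

/-- (twice) the area of the quadrilateral -/
def Ar (a b c d : ℝ × ℝ) : ℝ := |D c d b - D c d a|

theorem Ar_swap (a b c d : ℝ × ℝ) : Ar b a c d = Ar a b c d := by
  unfold Ar; rw [abs_sub_comm]

theorem Ar_swap' (a b c d : ℝ × ℝ) : Ar a b d c = Ar a b c d := by
  unfold Ar
  have : D d c b - D d c a = - (D c d b - D c d a) := by unfold D; ring
  rw [this, abs_neg]

theorem Ar_symm (a b c d : ℝ × ℝ) : Ar c d a b = Ar a b c d := by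
  unfold Ar
  have : D a b d - D a b c = - (D c d b - D c d a) := by unfold D; ring
  rw [this, abs_neg]

/-- replacing a vertex by an inner point decreases the area -/
theorem Ar_lt {a b c d x : ℝ × ℝ} {ε : ℝ} (h1 : 0 < ε * D a c x) (h2 : 0 < ε * D c d x)
    (h3 : 0 < ε * D d a x) (hb : ε * D c d b < 0) : Ar x b c d < Ar a b c d := by
  unfold Ar
  have e0 : D c d a = D a c x + D c d x + D d a x := by unfold D; ring
  have hε : ε ≠ 0 := by rintro rfl; simp at h1
  have hε' : 0 < |ε| := abs_pos.2 hε
  refine lt_of_mul_lt_mul_left ?_ hε'.le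
  rw [← abs_mul, ← abs_mul, mul_sub, mul_sub, abs_of_neg (by linarith), abs_of_neg]
  · rw [e0]; linarith
  · rw [e0]; linarith

end Pool.Agent.Q248.GH
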