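import Pool.Agent.Q248.GH.Basic

/-!
A set of pairwise noncrossing segments spanned by `n` points of the plane in general position, `U`
of which are on the upper and `L` on the lower hull, has at most `3 n - 1 - U - L` elements.
-/

namespace Pool.Agent.Q248.GH

open Finset

variable {V : Type} (p : V → ℝ × ℝ)

/-- general position -/
def GP : Prop := ∀ i j k : V, i ≠ j → i ≠ k → j ≠ k → D (p i) (p j) (p k) ≠ 0

/-- slope -/
noncomputable def sl (e : V × V) : ℝ := ((p e.2).2 - (p e.1).2) / ((p e.2).1 - (p e.1).1)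

/-- the line through the two points -/
noncomputable def ln (e : V × V) (t : ℝ) : ℝ := (p e.1).2 + sl p e * (t - (p e.1).1)

/-- left end first -/
def Ord (e : V × V) : Prop := (p e.1).1 < (p e.2).1

/-- not crossing -/
def NC (e f : V × V) : Prop := ∀ r, (p e.1).1 < r → r < (p e.2).1 → (p f.1).1 < r →
  r < (p f.2).1 → ln p e r ≠ ln p f r

/-- `w` is above all segments that span it -/
def UP (w : V) : Prop := ∀ u v : V, (p u).1 < (p w).1 → (p w).1 < (p v).1 →
  ln p (u, v) (p w).1 < (p w).2

/-- `w` is below all segments that span it -/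
def LO (w : V) : Prop := ∀ u v : V, (p u).1 < (p w).1 → (p w).1 < (p v).1 →
  (p w).2 < ln p (u, v) (p w).1

variable {p}

theorem ln_left (e : V × V) : ln p e (p e.1).1 = (p e.1).2 := by unfold ln; ring

theorem ln_diff (e : V × V) (s t : ℝ) : ln p e t - ln p e s = sl p e * (t - s) := by
  unfold ln; ring

theorem ln_right {e : V × V} (h : Ord p e) : ln p e (p e.2).1 = (p e.2).2 := by
  have h1 : (p e.2).1 - (p e.1).1 ≠ 0 := sub_ne_zero.2 (ne_of_gt h)
  unfold ln sl
  field_simp
  ring

theorem D_ln {e : V × V} (h : Ord p e) (w : V) : D (p e.1) (p e.2) (p w) =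
    ((p e.2).1 - (p e.1).1) * ((p w).2 - ln p e (p w).1) := by
  have h1 : (p e.2).1 - (p e.1).1 ≠ 0 := sub_ne_zero.2 (ne_of_gt h)
  unfold ln sl D
  field_simp
  ring

theorem nc_symm {e f : V × V} (h : NC p e f) : NC p f e := fun r a b c d =>
  (h r c d a b).symm

theorem nc_of_not_X (gp : GP p) {e f : V × V} (he : Ord p e) (hf : Ord p f) (hne : e ≠ f)
    (h : ¬ X (p e.1) (p e.2) (p f.1) (p f.2)) : NC p e f := by
  intro r h1 h2 h3 h4 h5
  apply h
  have he' : (0 : ℝ) < (p e.2).1 - (p e.1).1 := sub_pos.2 he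
  have hf' : (0 : ℝ) < (p f.2).1 - (p f.1).1 := sub_pos.2 hf
  set κ := sl p f - sl p e with hκ
  have a1 : D (p e.1) (p e.2) (p f.1) = ((p e.2).1 - (p e.1).1) * (κ * ((p f.1).1 - r)) := by
    rw [D_ln he, ← ln_left f]
    congr 1
    have := ln_diff (p := p) f r (p f.1).1
    have := ln_diff (p := p) e r (p f.1).1
    rw [hκ]; linarith
  have a2 : D (p e.1) (p e.2) (p f.2) = ((p e.2).1 - (p e.1).1) * (κ * ((p f.2).1 - r)) := by
    rw [D_ln he, ← ln_right hf]
    congr 1
    have := ln_diff (p := p) f r (p f.2).1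
    have := ln_diff (p := p) e r (p f.2).1
    rw [hκ]; linarith
  have a3 : D (p f.1) (p f.2) (p e.1) = ((p f.2).1 - (p f.1).1) * (-κ * ((p e.1).1 - r)) := by
    rw [D_ln hf, ← ln_left e]
    congr 1
    have := ln_diff (p := p) f r (p e.1).1
    have := ln_diff (p := p) e r (p e.1).1
    rw [hκ]; linarith
  have a4 : D (p f.1) (p f.2) (p e.2) = ((p f.2).1 - (p f.1).1) * (-κ * ((p e.2).1 - r)) := by
    rw [D_ln hf, ← ln_right he]
    congr 1
    have := ln_diff (p := p) f r (p e.2).1
    have := ln_diff (p := p) e r (p e.2).1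
    rw [hκ]; linarith
  by_cases hk : κ = 0
  · exfalso
    have b1 : D (p e.1) (p e.2) (p f.1) = 0 := by rw [a1, hk]; ring
    have b2 : D (p e.1) (p e.2) (p f.2) = 0 := by rw [a2, hk]; ring
    have ne1 : e.1 ≠ e.2 := fun h => by
      have := he; unfold Ord at this; rw [h] at this; exact lt_irrefl _ this
    have ne2 : f.1 ≠ f.2 := fun h => by
      have := hf; unfold Ord at this; rw [h] at this; exact lt_irrefl _ this
    have c1 : f.1 = e.1 ∨ f.1 = e.2 := by
      by_contra hc
      push Not at hc
      exact gp e.1 e.2 f.1 ne1 hc.1.symm hc.2.symm b1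
    have c2 : f.2 = e.1 ∨ f.2 = e.2 := by
      by_contra hc
      push Not at hc
      exact gp e.1 e.2 f.2 ne1 hc.1.symm hc.2.symm b2
    rcases c1 with c1 | c1 <;> rcases c2 with c2 | c2
    · exact ne2 (c1.trans c2.symm)
    · exact hne (Prod.ext c1.symm c2.symm)
    · unfold Ord at he hf
      rw [c1, c2] at hf
      exact lt_asymm he hf
    · exact ne2 (c1.trans c2.symm)
  · have hk2 : 0 < κ ^ 2 := by positivity
    refine ⟨?_, ?_⟩
    · rw [a1, a2]
      have : 0 < ((p e.2).1 - (p e.1).1) ^ 2 * κ ^ 2 * ((r - (p f.1).1) * ((p f.2).1 - r)) :=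
        mul_pos (by positivity) (mul_pos (by linarith) (by linarith))
      nlinarith
    · rw [a3, a4]
      have : 0 < ((p f.2).1 - (p f.1).1) ^ 2 * κ ^ 2 * ((r - (p e.1).1) * ((p e.2).1 - r)) :=
        mul_pos (by positivity) (mul_pos (by linarith) (by linarith))
      nlinarith

/-- the relative position of two noncrossing segments does not change -/
theorem le_of_nc {e f : V × V} (h : NC p e f) {s t : ℝ} (s1 : (p e.1).1 ≤ s) (s2 : s ≤ (p e.2).1)
    (s3 : (p f.1).1 ≤ s) (s4 : s ≤ (p f.2).1) (t1 : (p e.1).1 ≤ t) (t2 : t ≤ (p e.2).1)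
    (t3 : (p f.1).1 ≤ t) (t4 : t ≤ (p f.2).1) (hlt : ln p e s < ln p f s) :
    ln p e t ≤ ln p f t := by
  by_contra hc
  push Not at hc
  set a := ln p f s - ln p e s with ha
  set b := ln p e t - ln p f t with hb
  have ha0 : 0 < a := sub_pos.2 hlt
  have hb0 : 0 < b := sub_pos.2 hc
  have hab : 0 < a + b := by linarith
  set l := a / (a + b) with hl
  have l0 : 0 < l := div_pos ha0 hab
  have l1 : l < 1 := by rw [hl, div_lt_one hab]; linarith
  have hk : (sl p e - sl p f) * (t - s) = a + b := by
    have := ln_diff (p := p) e s t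
    have := ln_diff (p := p) f s t
    rw [ha, hb]; linarith
  have hr : ln p e (s + l * (t - s)) = ln p f (s + l * (t - s)) := by
    have e1 := ln_diff (p := p) e s (s + l * (t - s))
    have e2 := ln_diff (p := p) f s (s + l * (t - s))
    have e3 : (sl p e - sl p f) * (l * (t - s)) = a := by
      have : (sl p e - sl p f) * (l * (t - s)) = l * ((sl p e - sl p f) * (t - s)) := by ring
      rw [this, hk, hl, div_mul_cancel₀ _ (ne_of_gt hab)]
    have e4 : s + l * (t - s) - s = l * (t - s) := by ring
    rw [e4] at e1 e2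
    rw [ha] at e3
    linarith
  rcases lt_trichotomy s t with hst | hst | hst
  · have h1 : 0 < l * (t - s) := mul_pos l0 (by linarith)
    have h2 : l * (t - s) < t - s := by nlinarith
    exact h _ (by linarith) (by linarith) (by linarith) (by linarith) hr
  · rw [hst] at hlt
    exact lt_asymm hlt hc
  · have h1 : l * (t - s) < 0 := by nlinarith
    have h2 : t - s < l * (t - s) := by nlinarith
    exact h _ (by linarith) (by linarith) (by linarith) (by linarith) hr

/-- `e` is the segment of `E` directly below `w` -/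
def DB (p : V → ℝ × ℝ) (E : Finset (V × V)) (e : V × V) (w : V) : Prop :=
  (p e.1).1 < (p w).1 ∧ (p w).1 < (p e.2).1 ∧ ln p e (p w).1 < (p w).2 ∧
    ∀ f ∈ E, (p f.1).1 < (p w).1 → (p w).1 < (p f.2).1 → ln p f (p w).1 < (p w).2 →
      ln p f (p w).1 ≤ ln p e (p w).1

theorem ln_ne (gp : GP p) {e : V × V} (h : Ord p e) {w : V} (h1 : w ≠ e.1) (h2 : w ≠ e.2) :
    ln p e (p w).1 ≠ (p w).2 := by
  intro h3
  refine gp e.1 e.2 w ?_ h1.symm h2.symm ?_
  · intro h4
    unfold Ord at h
    rw [h4] at h
    exact lt_irrefl _ h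
  · rw [D_ln h, h3]; ring

theorem exists_below [Fintype V] (gp : GP p) (hx : Function.Injective fun i => (p i).1)
    {E : Finset (V × V)} (hord : ∀ e ∈ E, Ord p e) (hnc : ∀ e ∈ E, ∀ f ∈ E, e ≠ f → NC p e f)
    {e : V × V} (he : e ∈ E) (hTL : ∃ k ∈ E, k.2 = e.2 ∧ sl p k < sl p e)
    (hTR : ∃ g ∈ E, g.1 = e.1 ∧ sl p e < sl p g) : ∃ w, DB p E e w := by
  classical
  obtain ⟨k, hkE, hk2, hks⟩ := hTL
  obtain ⟨g, hg, hgmin⟩ := Finset.exists_min_image (E.filter (fun g => g.1 = e.1 ∧ sl p e < sl p g))
    (fun g => sl p g) (by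
      obtain ⟨g, h1, h2⟩ := hTR
      exact ⟨g, Finset.mem_filter.2 ⟨h1, h2⟩⟩)
  rw [Finset.mem_filter] at hg
  obtain ⟨hgE, hg1, hgs⟩ := hg
  have oe := hord e he
  have ok := hord k hkE
  have og := hord g hgE
  have eg : ∀ t, ln p g t - ln p e t = (sl p g - sl p e) * (t - (p e.1).1) := by
    intro t
    have h1 := ln_diff (p := p) g (p e.1).1 t
    have h2 := ln_diff (p := p) e (p e.1).1 t
    have h3 : ln p g (p e.1).1 = (p e.1).2 := by rw [← hg1]; exact ln_left g
    have h4 := ln_left (p := p) e
    linarith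
  have ek : ∀ t, ln p k t - ln p e t = (sl p k - sl p e) * (t - (p e.2).1) := by
    intro t
    have h1 := ln_diff (p := p) k (p e.2).1 t
    have h2 := ln_diff (p := p) e (p e.2).1 t
    have h3 : ln p k (p e.2).1 = (p e.2).2 := by rw [← hk2]; exact ln_right ok
    have h4 := ln_right oe
    linarith
  set Z := (Finset.univ : Finset V).filter (fun w => (p e.1).1 < (p w).1 ∧ (p w).1 < (p e.2).1 ∧
    (p w).1 ≤ (p g.2).1 ∧ ln p e (p w).1 < (p w).2 ∧ (p w).2 ≤ ln p g (p w).1) with hZ
  have hZne : Z.Nonempty := by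
    rcases lt_or_ge (p g.2).1 (p e.2).1 with hc | hc
    · refine ⟨g.2, Finset.mem_filter.2 ⟨Finset.mem_univ _, ?_, hc, le_refl _, ?_, ?_⟩⟩
      · rw [← hg1]; exact og
      · have h1 := eg (p g.2).1
        rw [ln_right og] at h1
        have h2 : 0 < (sl p g - sl p e) * ((p g.2).1 - (p e.1).1) :=
          mul_pos (by linarith) (by rw [← hg1]; exact sub_pos.2 og)
        linarith
      · rw [ln_right og]
    · have hkg : k ≠ g := by
        rintro rfl
        linarith
      have hnkg := hnc k hkE g hgE hkg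
      have h0 : ln p k (p e.2).1 < ln p g (p e.2).1 := by
        have h1 := ek (p e.2).1
        have h2 := eg (p e.2).1
        have h3 : 0 < (sl p g - sl p e) * ((p e.2).1 - (p e.1).1) :=
          mul_pos (by linarith) (sub_pos.2 oe)
        have h4 : (sl p k - sl p e) * ((p e.2).1 - (p e.2).1) = 0 := by ring
        linarith
      have ok' : (p k.1).1 < (p e.2).1 := by rw [← hk2]; exact ok
      have kk : (p k.2).1 = (p e.2).1 := by rw [hk2]
      have gg : (p g.1).1 = (p e.1).1 := by rw [hg1]
      have oe' : (p e.1).1 < (p e.2).1 := oe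
      rcases lt_or_ge (p e.1).1 (p k.1).1 with hc2 | hc2
      · refine ⟨k.1, Finset.mem_filter.2 ⟨Finset.mem_univ _, hc2, ok', by linarith, ?_, ?_⟩⟩
        · have h1 := ek (p k.1).1
          rw [ln_left] at h1
          have h2 : 0 < (sl p k - sl p e) * ((p k.1).1 - (p e.2).1) :=
            mul_pos_of_neg_of_neg (by linarith) (by linarith)
          linarith
        · have := le_of_nc hnkg (s := (p e.2).1) (t := (p k.1).1) ok'.le (by linarith)
            (by linarith) hc le_rfl (by linarith) (by linarith) (by linarith) h0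
          rwa [ln_left] at this
      · exfalso
        have := le_of_nc hnkg (s := (p e.2).1) (t := (p e.1).1) ok'.le (by linarith)
          (by linarith) hc hc2 (by linarith) (by linarith) (by linarith) h0
        have h1 := ek (p e.1).1
        have h2 := eg (p e.1).1
        have h3 : 0 < (sl p k - sl p e) * ((p e.1).1 - (p e.2).1) :=
          mul_pos_of_neg_of_neg (by linarith) (by linarith)
        have h4 : (sl p g - sl p e) * ((p e.1).1 - (p e.1).1) = 0 := by ring
        linarith
  obtain ⟨w, hw, hwmin⟩ := Finset.exists_min_image Z (fun w => (p w).1) hZne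
  have hw' := hw
  rw [hZ, Finset.mem_filter] at hw
  obtain ⟨-, w1, w2, w3, w4, w5⟩ := hw
  refine ⟨w, w1, w2, w4, ?_⟩
  intro f hf f1 f2 f3
  by_contra hc
  push Not at hc
  have of := hord f hf
  have hef : e ≠ f := by
    rintro rfl
    exact lt_irrefl _ hc
  have hfg : f ≠ g := by
    rintro rfl
    linarith
  have nef := hnc e he f hf hef
  have nfg := hnc f hf g hgE hfg
  have gg : (p g.1).1 = (p e.1).1 := by rw [hg1]
  have fw : ln p f (p w).1 < ln p g (p w).1 := by linarith
  rcases lt_trichotomy (p f.1).1 (p e.1).1 with hc2 | hc2 | hc2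
  · have h1 := le_of_nc nef (s := (p w).1) (t := (p e.1).1) w1.le w2.le f1.le f2.le le_rfl
      (by linarith) (by linarith) (by linarith) hc
    rw [ln_left] at h1
    have h2 : (p e.1).2 ≠ ln p f (p e.1).1 := (ln_ne gp of (by
      rintro h; rw [h] at hc2; exact lt_irrefl _ hc2) (by
      rintro h; rw [h] at w1; linarith)).symm
    have h3 : ln p g (p e.1).1 < ln p f (p e.1).1 := by
      have : ln p g (p e.1).1 = (p e.1).2 := by rw [← hg1]; exact ln_left g
      rw [this]
      exact lt_of_le_of_ne h1 h2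
    have := le_of_nc (nc_symm nfg) (s := (p e.1).1) (t := (p w).1) (by linarith) (by linarith)
      (by linarith) (by linarith) (by linarith) (by linarith) (by linarith) (by linarith) h3
    linarith
  · have hfe : f.1 = e.1 := hx hc2
    have h1 : ln p f (p w).1 - ln p e (p w).1 = (sl p f - sl p e) * ((p w).1 - (p e.1).1) := by
      have h1 := ln_diff (p := p) f (p e.1).1 (p w).1
      have h2 := ln_diff (p := p) e (p e.1).1 (p w).1
      have h3 : ln p f (p e.1).1 = (p e.1).2 := by rw [← hfe]; exact ln_left f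
      have h4 := ln_left (p := p) e
      linarith
    have h2 := eg (p w).1
    have h3 : sl p e < sl p f := by
      by_contra h
      push Not at h
      have : (sl p f - sl p e) * ((p w).1 - (p e.1).1) ≤ 0 :=
        mul_nonpos_of_nonpos_of_nonneg (by linarith) (by linarith)
      linarith
    have h4 := hgmin f (Finset.mem_filter.2 ⟨hf, hfe, h3⟩)
    have h5 : (sl p g - sl p e) * ((p w).1 - (p e.1).1) ≤
        (sl p f - sl p e) * ((p w).1 - (p e.1).1) :=
      mul_le_mul_of_nonneg_right (by linarith) (by linarith)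
    linarith
  · have hin : f.1 ∈ Z := by
      refine Finset.mem_filter.2 ⟨Finset.mem_univ _, hc2, by linarith, by linarith, ?_, ?_⟩
      · have h1 := le_of_nc nef (s := (p w).1) (t := (p f.1).1) w1.le w2.le f1.le f2.le (by linarith)
          (by linarith) (by linarith) (by linarith) hc
        rw [ln_left] at h1
        refine lt_of_le_of_ne h1 (ln_ne gp oe ?_ ?_)
        · rintro h; rw [h] at hc2; exact lt_irrefl _ hc2
        · rintro h; rw [h] at f1; linarith
      · have := le_of_nc nfg (s := (p w).1) (t := (p f.1).1) f1.le f2.le (by linarith) (by linarith)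
          (by linarith) (by linarith) (by linarith) (by linarith) fw
        rwa [ln_left] at this
    have := hwmin _ hin
    linarith

end Pool.Agent.Q248.GH
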