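import Pool.Agent.Q248.GH.Count

/-!
At most `3 n - 3 - h` pairwise noncrossing segments.
-/

namespace Pool.Agent.Q248.GH

open Finset

variable {V : Type}

/-- `w` is a vertex of the convex hull -/
def Ext (p : V → ℝ × ℝ) (w : V) : Prop := p w ∉ convexHull ℝ (p '' {w}ᶜ)

open Classical in
/-- the number of vertices of the convex hull -/
noncomputable def hull [Fintype V] (p : V → ℝ × ℝ) : ℕ :=
  ((univ : Finset V).filter (fun w => Ext p w)).card

/-- the shear -/
noncomputable def shear (m : ℝ) : ℝ × ℝ →ₗ[ℝ] ℝ × ℝ where
  toFun z := (z.1 + m * z.2, z.2)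
  map_add' x y := by
    ext
    · simp only [Prod.fst_add, Prod.snd_add]; ring
    · simp
  map_smul' c x := by
    ext
    · simp only [Prod.smul_fst, Prod.smul_snd, smul_eq_mul, RingHom.id_apply]; ring
    · simp

theorem D_shear (m : ℝ) (a b c : ℝ × ℝ) : D (shear m a) (shear m b) (shear m c) = D a b c := by
  simp only [shear, LinearMap.coe_mk, AddHom.coe_mk, D]
  ring

theorem shear_inv (m : ℝ) (z : ℝ × ℝ) : shear (-m) (shear m z) = z := by
  simp only [shear, LinearMap.coe_mk, AddHom.coe_mk]
  ext
  · simp
  · simp

/-- a direction for which all first coordinates are different -/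
theorem exists_shear [Finite V] {p : V → ℝ × ℝ} (hp : Function.Injective p) :
    ∃ m : ℝ, Function.Injective fun i => (shear m (p i)).1 := by
  classical
  have hfin : (⋃ i : V, ⋃ j : V, {m : ℝ | i ≠ j ∧ (shear m (p i)).1 = (shear m (p j)).1}).Finite := by
    refine Set.finite_iUnion fun i => Set.finite_iUnion fun j => ?_
    by_cases hij : i = j
    · have : {m : ℝ | i ≠ j ∧ (shear m (p i)).1 = (shear m (p j)).1} = ∅ := by
        ext m; constructor
        · rintro ⟨h, -⟩; exact h hij
        · rintro ⟨⟩
      rw [this]; exact Set.finite_empty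
    · refine Set.Subsingleton.finite ?_
      rintro m ⟨-, hm⟩ m' ⟨-, hm'⟩
      simp only [shear, LinearMap.coe_mk, AddHom.coe_mk] at hm hm'
      have h1 : (m - m') * ((p i).2 - (p j).2) = 0 := by linarith
      rcases mul_eq_zero.1 h1 with h | h
      · linarith
      · exfalso
        apply hij
        apply hp
        have h2 : (p i).2 = (p j).2 := by linarith
        rw [h2] at hm
        exact Prod.ext (by linarith) h2
  obtain ⟨m, hm⟩ := hfin.infinite_compl.nonempty
  refine ⟨m, fun i j hij => ?_⟩
  by_contra hne
  exact hm (Set.mem_iUnion.2 ⟨i, Set.mem_iUnion.2 ⟨j, hne, hij⟩⟩)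

theorem ln_mem_segment {p : V → ℝ × ℝ} {e : V × V} (h : Ord p e) {t : ℝ} (h1 : (p e.1).1 < t)
    (h2 : t < (p e.2).1) : (t, ln p e t) ∈ segment ℝ (p e.1) (p e.2) := by
  have hd : 0 < (p e.2).1 - (p e.1).1 := sub_pos.2 h
  refine ⟨((p e.2).1 - t) / ((p e.2).1 - (p e.1).1), (t - (p e.1).1) / ((p e.2).1 - (p e.1).1),
    (div_pos (by linarith) hd).le, (div_pos (by linarith) hd).le, ?_, ?_⟩
  · rw [← add_div, div_eq_one_iff_eq (ne_of_gt hd)]; ring
  · have hd' := ne_of_gt hd
    ext
    · simp only [Prod.fst_add, Prod.smul_fst, smul_eq_mul]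
      field_simp
      ring
    · simp only [Prod.snd_add, Prod.smul_snd, smul_eq_mul]
      unfold ln sl
      field_simp
      ring

theorem up_or_lo {p : V → ℝ × ℝ} {w : V} (h : Ext p w) : UP p w ∨ LO p w := by
  by_contra hc
  push Not at hc
  obtain ⟨h1, h2⟩ := hc
  unfold UP at h1
  unfold LO at h2
  push Not at h1 h2
  obtain ⟨u, v, a1, a2, a3⟩ := h1
  obtain ⟨u', v', b1, b2, b3⟩ := h2
  apply h
  have o1 : Ord p (u, v) := lt_trans a1 a2
  have o2 : Ord p (u', v') := lt_trans b1 b2
  have ne : ∀ z : V, (p z).1 ≠ (p w).1 → p z ∈ p '' {w}ᶜ := by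
    intro z hz
    refine ⟨z, ?_, rfl⟩
    intro h
    have : z = w := h
    rw [this] at hz
    exact hz rfl
  have m1 : ((p w).1, ln p (u, v) (p w).1) ∈ convexHull ℝ (p '' {w}ᶜ) :=
    (convex_convexHull ℝ _).segment_subset (subset_convexHull ℝ _ (ne u (ne_of_lt a1)))
      (subset_convexHull ℝ _ (ne v (ne_of_gt a2))) (ln_mem_segment o1 a1 a2)
  have m2 : ((p w).1, ln p (u', v') (p w).1) ∈ convexHull ℝ (p '' {w}ᶜ) :=
    (convex_convexHull ℝ _).segment_subset (subset_convexHull ℝ _ (ne u' (ne_of_lt b1)))
      (subset_convexHull ℝ _ (ne v' (ne_of_gt b2))) (ln_mem_segment o2 b1 b2)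
  set y1 := ln p (u, v) (p w).1
  set y2 := ln p (u', v') (p w).1
  rcases (a3.trans' b3).eq_or_lt with hy | hy
  · have : (p w).2 = y1 := le_antisymm a3 (by rw [← hy]; exact b3)
    have e : p w = ((p w).1, y1) := Prod.ext rfl this
    rw [e]
    exact m1
  · refine (convex_convexHull ℝ _).segment_subset m1 m2 ?_
    have hd : 0 < y1 - y2 := by linarith
    have hd' := ne_of_gt hd
    refine ⟨((p w).2 - y2) / (y1 - y2), (y1 - (p w).2) / (y1 - y2), div_nonneg (by linarith) hd.le,
      div_nonneg (by linarith) hd.le, ?_, ?_⟩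
    · rw [← add_div, div_eq_one_iff_eq hd']; ring
    · ext
      · simp only [Prod.fst_add, Prod.smul_fst, smul_eq_mul]
        field_simp
        ring
      · simp only [Prod.snd_add, Prod.smul_snd, smul_eq_mul]
        field_simp
        ring

theorem upper_bound [Fintype V] {p : V → ℝ × ℝ} (gp : GP p) (hp : Function.Injective p)
    (h2 : 2 ≤ Fintype.card V) (T : Finset (Sym2 V)) (hd : ∀ e ∈ T, ¬ e.IsDiag)
    (hn : ∀ a b c d, s(a, b) ∈ T → s(c, d) ∈ T → ¬ X (p a) (p b) (p c) (p d)) :
    T.card + hull p + 3 ≤ 3 * Fintype.card V := by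
  classical
  obtain ⟨m, hm⟩ := exists_shear hp
  set q : V → ℝ × ℝ := fun i => shear m (p i) with hq
  have Dq : ∀ i j k, D (q i) (q j) (q k) = D (p i) (p j) (p k) := fun i j k => D_shear _ _ _ _
  have gq : GP q := by
    intro i j k h1 h2 h3
    rw [Dq]
    exact gp i j k h1 h2 h3
  have hx : Function.Injective fun i => (q i).1 := hm
  have : Nonempty V := by
    rw [← Fintype.card_pos_iff]; omega
  set E := (univ : Finset (V × V)).filter (fun e => Ord q e ∧ s(e.1, e.2) ∈ T) with hE
  have hTE : T.card ≤ E.card := by
    have h1 : T ⊆ E.image (fun e => s(e.1, e.2)) := by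
      intro t ht
      induction t using Sym2.ind with
      | _ a b =>
        have hab : a ≠ b := fun h => hd _ ht (by rw [h]; exact Sym2.mk_isDiag_iff.2 rfl)
        have hne : (q a).1 ≠ (q b).1 := fun h => hab (hx h)
        rcases lt_or_gt_of_ne hne with h | h
        · exact Finset.mem_image.2 ⟨(a, b), Finset.mem_filter.2 ⟨Finset.mem_univ _, h, ht⟩, rfl⟩
        · refine Finset.mem_image.2 ⟨(b, a), Finset.mem_filter.2 ⟨Finset.mem_univ _, h, ?_⟩, ?_⟩
          · simp only; rw [Sym2.eq_swap]; exact ht
          · simp only; exact Sym2.eq_swap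
    exact (Finset.card_le_card h1).trans Finset.card_image_le
  have hc := count gq hx (E := E) (fun e he => (Finset.mem_filter.1 he).2.1) (by
    intro e he f hf hne
    have he' := (Finset.mem_filter.1 he).2
    have hf' := (Finset.mem_filter.1 hf).2
    refine nc_of_not_X gq he'.1 hf'.1 hne ?_
    intro hX
    apply hn e.1 e.2 f.1 f.2 he'.2 hf'.2
    unfold X at hX ⊢
    rw [Dq, Dq, Dq, Dq] at hX
    exact hX)
  have hh : hull p + 2 ≤ ((univ : Finset V).filter (fun w => UP q w)).card +
      ((univ : Finset V).filter (fun w => LO q w)).card := by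
    obtain ⟨vm, -, hvm⟩ := Finset.exists_min_image (univ : Finset V) (fun w => (q w).1)
      Finset.univ_nonempty
    obtain ⟨vM, -, hvM⟩ := Finset.exists_max_image (univ : Finset V) (fun w => (q w).1)
      Finset.univ_nonempty
    have hne : vm ≠ vM := by
      intro h
      obtain ⟨a, b, hab⟩ := Fintype.exists_pair_of_one_lt_card (α := V) (by omega)
      apply hab
      apply hx
      have h1 := hvm a (Finset.mem_univ _)
      have h2 := hvm b (Finset.mem_univ _)
      have h3 := hvM a (Finset.mem_univ _)
      have h4 := hvM b (Finset.mem_univ _)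
      rw [← h] at h3 h4
      change (q a).1 = (q b).1
      linarith
    have h1 : ({vm, vM} : Finset V) ⊆ ((univ : Finset V).filter (fun w => UP q w)) ∩
        ((univ : Finset V).filter (fun w => LO q w)) := by
      intro w hw
      rw [Finset.mem_insert, Finset.mem_singleton] at hw
      refine Finset.mem_inter.2 ⟨Finset.mem_filter.2 ⟨Finset.mem_univ _, ?_⟩,
        Finset.mem_filter.2 ⟨Finset.mem_univ _, ?_⟩⟩
      · intro u v a b
        exfalso
        rcases hw with hw | hw
        · rw [hw] at a
          have := hvm u (Finset.mem_univ _)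
          linarith
        · rw [hw] at b
          have := hvM v (Finset.mem_univ _)
          linarith
      · intro u v a b
        exfalso
        rcases hw with hw | hw
        · rw [hw] at a
          have := hvm u (Finset.mem_univ _)
          linarith
        · rw [hw] at b
          have := hvM v (Finset.mem_univ _)
          linarith
    have h2 : ((univ : Finset V).filter (fun w => Ext p w)) ⊆
        ((univ : Finset V).filter (fun w => UP q w)) ∪
        ((univ : Finset V).filter (fun w => LO q w)) := by
      intro w hw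
      have hw' := (Finset.mem_filter.1 hw).2
      have hq' : Ext q w := by
        intro h
        apply hw'
        have h3 : shear (-m) (q w) ∈ shear (-m) '' (convexHull ℝ (q '' {w}ᶜ)) :=
          Set.mem_image_of_mem _ h
        rw [LinearMap.image_convexHull, ← Set.image_comp] at h3
        have h4 : (shear (-m)) ∘ q = p := by
          funext i
          exact shear_inv m (p i)
        rw [h4] at h3
        have h5 : shear (-m) (q w) = p w := shear_inv m (p w)
        rw [h5] at h3
        exact h3
      rcases up_or_lo hq' with h | h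
      · exact Finset.mem_union_left _ (Finset.mem_filter.2 ⟨Finset.mem_univ _, h⟩)
      · exact Finset.mem_union_right _ (Finset.mem_filter.2 ⟨Finset.mem_univ _, h⟩)
    have h3 := Finset.card_le_card h1
    have h4 := Finset.card_le_card h2
    have h5 := Finset.card_union_add_card_inter ((univ : Finset V).filter (fun w => UP q w))
      ((univ : Finset V).filter (fun w => LO q w))
    rw [Finset.card_pair hne] at h3
    have h6 : hull p = ((univ : Finset V).filter (fun w => Ext p w)).card := by
      unfold hull
      congr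
    omega
  omega

end Pool.Agent.Q248.GH
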